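import Mathlib

open Set Topology

namespace Pool.Agent.Lib.MP_88a170_gt

theorem isClosed_exists_compact {X Y : Type*} [TopologicalSpace X] [TopologicalSpace Y]
    {K : Set Y} (hK : IsCompact K) {P : X → Y → Prop} (hP : IsClosed {z : X × Y | P z.1 z.2}) :
    IsClosed {x | ∃ y ∈ K, P x y} := by
  have := isCompact_iff_compactSpace.mp hK
  have h := isClosedMap_fst_of_compactSpace (X := X) (Y := K) _
    (hP.preimage (continuous_fst.prodMk (continuous_subtype_val.comp continuous_snd)))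
  convert h using 1
  ext x
  simp

variable {F : Type*} [TopologicalSpace F] [T2Space F]

/-- The map is constant on the segment of height two and slope `a` that starts at `(x, t)`. -/
def Up (A : ℝ × ℝ → F) (x t a : ℝ) : Prop :=
  ∀ s ∈ Icc (0 : ℝ) 2, A (x + s * a, t + s) = A (x, t)

def Lc (A : ℝ × ℝ → F) (x t : ℝ) : Prop :=
  x ≤ -3 ∨ ∃ a ∈ Icc (-1 : ℝ) 1, Up A x t a ∧ x + (-t) * a ≤ 0

def Rc (A : ℝ × ℝ → F) (x t : ℝ) : Prop :=
  3 ≤ x ∨ ∃ a ∈ Icc (-1 : ℝ) 1, Up A x t a ∧ 0 ≤ x + (-t) * a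

def Cup (A : ℝ × ℝ → F) (t x y : ℝ) : Prop :=
  x ≤ y ∧ Lc A x t ∧ Rc A y t ∧ ∀ θ ∈ Icc (0 : ℝ) 1, A (x + θ * (y - x), t) = A (x, t)

theorem isClosed_up {A : ℝ × ℝ → F} (hA : Continuous A) {X : Type*} [TopologicalSpace X]
    {x t a : X → ℝ} (hx : Continuous x) (ht : Continuous t) (ha : Continuous a) :
    IsClosed {z | Up A (x z) (t z) (a z)} := by
  have : {z | Up A (x z) (t z) (a z)} =
      ⋂ s ∈ Icc (0 : ℝ) 2, {z | A (x z + s * a z, t z + s) = A (x z, t z)} := by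
    ext z; simp [Up]
  rw [this]
  refine isClosed_biInter fun s _ => isClosed_eq ?_ ?_ <;> fun_prop

theorem isClosed_lc {A : ℝ × ℝ → F} (hA : Continuous A) {X : Type*} [TopologicalSpace X]
    {x t : X → ℝ} (hx : Continuous x) (ht : Continuous t) :
    IsClosed {z | Lc A (x z) (t z)} := by
  have h1 : IsClosed {z | x z ≤ -3} := isClosed_le hx continuous_const
  have h2 : IsClosed {z | ∃ a ∈ Icc (-1 : ℝ) 1, Up A (x z) (t z) a ∧ x z + (-(t z)) * a ≤ 0} := by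
    refine isClosed_exists_compact isCompact_Icc ?_
    refine IsClosed.inter (isClosed_up hA (x := fun z : X × ℝ => x z.1)
      (t := fun z : X × ℝ => t z.1) (a := fun z : X × ℝ => z.2) (by fun_prop) (by fun_prop)
      (by fun_prop)) (isClosed_le (f := fun z : X × ℝ => x z.1 + (-(t z.1)) * z.2)
      (g := fun _ => (0 : ℝ)) (by fun_prop) continuous_const)
  exact h1.union h2

theorem isClosed_rc {A : ℝ × ℝ → F} (hA : Continuous A) {X : Type*} [TopologicalSpace X]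
    {x t : X → ℝ} (hx : Continuous x) (ht : Continuous t) :
    IsClosed {z | Rc A (x z) (t z)} := by
  have h1 : IsClosed {z | 3 ≤ x z} := isClosed_le continuous_const hx
  have h2 : IsClosed {z | ∃ a ∈ Icc (-1 : ℝ) 1, Up A (x z) (t z) a ∧ 0 ≤ x z + (-(t z)) * a} := by
    refine isClosed_exists_compact isCompact_Icc ?_
    refine IsClosed.inter (isClosed_up hA (x := fun z : X × ℝ => x z.1)
      (t := fun z : X × ℝ => t z.1) (a := fun z : X × ℝ => z.2) (by fun_prop) (by fun_prop)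
      (by fun_prop)) (isClosed_le (g := fun z : X × ℝ => x z.1 + (-(t z.1)) * z.2)
      (f := fun _ => (0 : ℝ)) continuous_const (by fun_prop))
  exact h1.union h2

theorem isClosed_cup {A : ℝ × ℝ → F} (hA : Continuous A) {X : Type*} [TopologicalSpace X]
    {t x y : X → ℝ} (ht : Continuous t) (hx : Continuous x) (hy : Continuous y) :
    IsClosed {z | Cup A (t z) (x z) (y z)} := by
  have h4 : IsClosed {z | ∀ θ ∈ Icc (0 : ℝ) 1, A (x z + θ * (y z - x z), t z) = A (x z, t z)} := by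
    have : {z | ∀ θ ∈ Icc (0 : ℝ) 1, A (x z + θ * (y z - x z), t z) = A (x z, t z)} =
        ⋂ θ ∈ Icc (0 : ℝ) 1, {z | A (x z + θ * (y z - x z), t z) = A (x z, t z)} := by
      ext z; simp
    rw [this]
    refine isClosed_biInter fun s _ => isClosed_eq ?_ ?_ <;> fun_prop
  exact (isClosed_le hx hy).inter ((isClosed_lc hA hx ht).inter ((isClosed_rc hA hy ht).inter h4))

omit [TopologicalSpace F] [T2Space F] in
theorem Cup.const {A : ℝ × ℝ → F} {t x y : ℝ} (h : Cup A t x y) {z : ℝ} (hz : z ∈ Icc x y) :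
    A (z, t) = A (x, t) := by
  rcases eq_or_lt_of_le h.1 with hxy | hxy
  · have : z = x := le_antisymm (hxy ▸ hz.2) hz.1
    rw [this]
  · have hpos : 0 < y - x := by linarith
    have h1 := h.2.2.2 ((z - x) / (y - x))
      ⟨div_nonneg (by linarith [hz.1]) hpos.le, (div_le_one hpos).2 (by linarith [hz.2])⟩
    have : x + (z - x) / (y - x) * (y - x) = z := by field_simp; ring
    rwa [this] at h1

omit [TopologicalSpace F] [T2Space F] in
theorem cross {A : ℝ × ℝ → F} {t x y a b : ℝ} (ht : t ∈ Icc (-1 : ℝ) 0) (hxy : x < y)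
    (hb : Up A x t b) (ha : Up A y t a) (hb' : 0 ≤ x + (-t) * b) (ha' : y + (-t) * a ≤ 0) :
    A (x, t) = A (y, t) := by
  have hba : 0 < b - a := by
    by_contra hcon
    have : (-t) * (b - a) ≤ 0 := mul_nonpos_of_nonneg_of_nonpos (by linarith [ht.2]) (by linarith)
    nlinarith
  set s := (y - x) / (b - a) with hs
  have hs0 : 0 ≤ s := div_nonneg (by linarith) hba.le
  have hs1 : s ≤ -t := by
    rw [hs, div_le_iff₀ hba]; nlinarith
  have hs2 : s ≤ 2 := by linarith [ht.1]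
  have heq : x + s * b = y + s * a := by
    have : s * (b - a) = y - x := by rw [hs]; field_simp
    linarith
  rw [← hb s ⟨hs0, hs2⟩, ← ha s ⟨hs0, hs2⟩, heq]

omit [TopologicalSpace F] [T2Space F] in
theorem Cup.unique {A : ℝ × ℝ → F} {t x y x' y' : ℝ} (ht : t ∈ Icc (-1 : ℝ) 0)
    (hx : x ∈ Icc (-3 : ℝ) 3) (hy : y ∈ Icc (-3 : ℝ) 3) (hx' : x' ∈ Icc (-3 : ℝ) 3)
    (hy' : y' ∈ Icc (-3 : ℝ) 3) (h : Cup A t x y) (h' : Cup A t x' y') :
    A (x, t) = A (x', t) := by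
  have key : ∀ {x y x' y' : ℝ}, y ∈ Icc (-3 : ℝ) 3 → x' ∈ Icc (-3 : ℝ) 3 → Cup A t x y →
      Cup A t x' y' → y < x' → A (x, t) = A (x', t) := by
    intro x y x' y' hy hx' h h' hlt
    rcases h.2.2.1 with h3 | ⟨b, -, hb, hb'⟩
    · linarith [hx'.2]
    rcases h'.2.1 with h3 | ⟨a, -, ha, ha'⟩
    · linarith [hy.1]
    rw [← h.const ⟨h.1, le_rfl⟩]
    exact cross ht hlt hb ha hb' ha'
  rcases lt_or_ge y x' with h1 | h1
  · exact key hy hx' h h' h1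
  rcases lt_or_ge y' x with h2 | h2
  · exact (key hy' hx h' h h2).symm
  have e1 := h.const (z := max x x') ⟨le_max_left _ _, max_le h.1 h1⟩
  have e2 := h'.const (z := max x x') ⟨le_max_right _ _, max_le h2 h'.1⟩
  rw [← e1, e2]

theorem exists_cup {A : ℝ × ℝ → F} (hA : Continuous A) {N : Set F}
    (hN : IsTotallyDisconnected N) {t : ℝ}
    (hup : ∀ x ∈ Icc (-3 : ℝ) 3, A (x, t) ∉ N → ∃ a ∈ Icc (-1 : ℝ) 1, Up A x t a) :
    ∃ x ∈ Icc (-3 : ℝ) 3, ∃ y ∈ Icc (-3 : ℝ) 3, Cup A t x y := by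
  have hL : IsCompact (Icc (-3 : ℝ) 3 ∩ {x | Lc A x t}) :=
    isCompact_Icc.inter_right (isClosed_lc hA continuous_id continuous_const)
  obtain ⟨x, hx⟩ := hL.exists_isGreatest ⟨-3, ⟨le_rfl, by norm_num⟩, Or.inl le_rfl⟩
  have hR : IsCompact (Icc x 3 ∩ {y | Rc A y t}) :=
    isCompact_Icc.inter_right (isClosed_rc hA continuous_id continuous_const)
  obtain ⟨y, hy⟩ := hR.exists_isLeast ⟨3, ⟨hx.1.1.2, le_rfl⟩, Or.inl le_rfl⟩
  have hxy : x ≤ y := hy.1.1.1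
  refine ⟨x, hx.1.1, y, ⟨hx.1.1.1.trans hxy, hy.1.1.2⟩, hxy, hx.1.2, hy.1.2, ?_⟩
  have hmem : ∀ z ∈ Ioo x y, A (z, t) ∈ N := by
    intro z hz
    by_contra hcon
    have hz3 : z ∈ Icc (-3 : ℝ) 3 := ⟨hx.1.1.1.trans hz.1.le, hz.2.le.trans hy.1.1.2⟩
    obtain ⟨a, ha, hua⟩ := hup z hz3 hcon
    rcases le_total (z + (-t) * a) 0 with h | h
    · exact absurd (hx.2 ⟨hz3, Or.inr ⟨a, ha, hua, h⟩⟩) (not_le.2 hz.1)
    · exact absurd (hy.2 ⟨⟨hz.1.le, hz3.2⟩, Or.inr ⟨a, ha, hua, h⟩⟩) (not_le.2 hz.2)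
  rcases eq_or_lt_of_le hxy with heq | hlt
  · intro θ _
    rw [← heq]; simp
  have hg : Continuous fun z : ℝ => A (z, t) := by fun_prop
  have hsub : ((fun z : ℝ => A (z, t)) '' Ioo x y).Subsingleton :=
    hN _ (by rintro _ ⟨z, hz, rfl⟩; exact hmem z hz) (isPreconnected_Ioo.image _ hg.continuousOn)
  have hmid : (x + y) / 2 ∈ Ioo x y := ⟨by linarith, by linarith⟩
  have hcl : ∀ z ∈ Icc x y, A (z, t) = A ((x + y) / 2, t) := by
    have h1 : Ioo x y ⊆ {z | A (z, t) = A ((x + y) / 2, t)} := fun z hz =>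
      hsub ⟨z, hz, rfl⟩ ⟨_, hmid, rfl⟩
    have h2 := (isClosed_eq hg continuous_const).closure_subset_iff.2 h1
    rw [closure_Ioo hlt.ne] at h2
    exact h2
  intro θ hθ
  rw [hcl x ⟨le_rfl, hxy⟩, hcl]
  constructor <;> nlinarith [hθ.1, hθ.2]

theorem core {A : ℝ × ℝ → F} (hA : Continuous A) {N : Set F}
    (hN : ∀ β, IsTotallyDisconnected (insert β N))
    (hup : ∀ x ∈ Icc (-3 : ℝ) 3, ∀ t ∈ Icc (-1 : ℝ) 0, A (x, t) ∉ N →
      ∃ a ∈ Icc (-1 : ℝ) 1, Up A x t a)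
    (huniq : ∀ x ∈ Icc (-3 : ℝ) 3, ∀ t ∈ Icc (-1 : ℝ) 0, A (x, t) ∉ N →
      ∀ a b, Up A x t a → Up A x t b → a = b)
    (hhor : ∀ x ∈ Icc (-3 : ℝ) 3, ∀ t ∈ Icc (-1 : ℝ) 0, A (x, t) ∉ N →
      ∀ y, x < y → ¬ ∀ z ∈ Icc x y, A (z, t) = A (x, t))
    (h0 : A (0, 0) ∉ N) :
    ∃ t ∈ Ico (-1 : ℝ) 0, ∃ x a : ℝ, x + (-t) * a = 0 ∧ Up A x t a := by
  by_contra hcon
  have hN0 : IsTotallyDisconnected N :=
    fun s hs hc => hN (A (0, 0)) s (hs.trans (subset_insert _ _)) hc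
  set V : Set F := {β | ∃ t ∈ Icc (-1 : ℝ) 0, ∃ x ∈ Icc (-3 : ℝ) 3, ∃ y ∈ Icc (-3 : ℝ) 3,
    Cup A t x y ∧ A (x, t) = β} with hV
  have hex : ∀ t ∈ Icc (-1 : ℝ) 0, ∃ x ∈ Icc (-3 : ℝ) 3, ∃ y ∈ Icc (-3 : ℝ) 3, Cup A t x y :=
    fun t ht => exists_cup hA hN0 fun x hx => hup x hx t ht
  have hclosed : ∀ C : Set F, IsClosed C → IsClosed {t : ℝ | ∃ x ∈ Icc (-3 : ℝ) 3,
      ∃ y ∈ Icc (-3 : ℝ) 3, Cup A t x y ∧ A (x, t) ∈ C} := by
    intro C hC
    refine isClosed_exists_compact isCompact_Icc ?_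
    refine isClosed_exists_compact isCompact_Icc ?_
    refine IsClosed.inter (isClosed_cup hA (t := fun z : (ℝ × ℝ) × ℝ => z.1.1)
      (x := fun z : (ℝ × ℝ) × ℝ => z.1.2) (y := fun z : (ℝ × ℝ) × ℝ => z.2) (by fun_prop)
      (by fun_prop) (by fun_prop)) ?_
    exact hC.preimage (f := fun z : (ℝ × ℝ) × ℝ => A (z.1.2, z.1.1)) (by fun_prop)
  have hVc : IsPreconnected V := by
    rw [isPreconnected_closed_iff]
    rintro C D hC hD hcov ⟨_, ⟨t1, ht1, x1, hx1, y1, hy1, hc1, rfl⟩, hC1⟩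
      ⟨_, ⟨t2, ht2, x2, hx2, y2, hy2, hc2, rfl⟩, hD2⟩
    obtain ⟨t, ht, ⟨x, hx, y, hy, hc, hxC⟩, ⟨x', hx', y', hy', hc', hxD⟩⟩ :=
      isPreconnected_closed_iff.1 (isPreconnected_Icc (a := (-1 : ℝ)) (b := 0)) _ _
        (hclosed C hC) (hclosed D hD)
        (by
          intro t ht
          obtain ⟨x, hx, y, hy, hc⟩ := hex t ht
          rcases hcov ⟨t, ht, x, hx, y, hy, hc, rfl⟩ with h | h
          · exact Or.inl ⟨x, hx, y, hy, hc, h⟩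
          · exact Or.inr ⟨x, hx, y, hy, hc, h⟩)
        ⟨t1, ht1, x1, hx1, y1, hy1, hc1, hC1⟩ ⟨t2, ht2, x2, hx2, y2, hy2, hc2, hD2⟩
    refine ⟨A (x, t), ⟨t, ht, x, hx, y, hy, hc, rfl⟩, hxC, ?_⟩
    rw [Cup.unique ht hx hy hx' hy' hc hc']
    exact hxD
  have h00 : Cup A 0 0 0 := by
    obtain ⟨a, ha, hua⟩ := hup 0 ⟨by norm_num, by norm_num⟩ 0 ⟨by norm_num, le_rfl⟩ h0
    refine ⟨le_rfl, Or.inr ⟨a, ha, hua, by simp⟩, Or.inr ⟨a, ha, hua, by simp⟩, ?_⟩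
    intro θ _; simp
  have hneg : ∀ t ∈ Ico (-1 : ℝ) 0, ∀ x ∈ Icc (-3 : ℝ) 3, ∀ y ∈ Icc (-3 : ℝ) 3,
      Cup A t x y → A (x, t) ∈ N := by
    intro t ht x hx y hy hc
    by_contra hg
    have ht' : t ∈ Icc (-1 : ℝ) 0 := ⟨ht.1, ht.2.le⟩
    have hxy : x = y := by
      by_contra hne
      exact hhor x hx t ht' hg y (lt_of_le_of_ne hc.1 hne) fun z hz => hc.const hz
    subst hxy
    obtain ⟨a, ha, hua⟩ := hup x hx t ht' hg
    refine hcon ⟨t, ht, x, a, le_antisymm ?_ ?_, hua⟩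
    · rcases hc.2.1 with h3 | ⟨b, -, hb, hb'⟩
      · nlinarith [ha.1, ha.2, ht.1, ht.2]
      · rwa [huniq x hx t ht' hg a b hua hb]
    · rcases hc.2.2.1 with h3 | ⟨b, -, hb, hb'⟩
      · nlinarith [ha.1, ha.2, ht.1, ht.2]
      · rwa [huniq x hx t ht' hg a b hua hb]
  have hz : (0 : ℝ) ∈ Icc (-3 : ℝ) 3 := ⟨by norm_num, by norm_num⟩
  have hVsub : V ⊆ insert (A (0, 0)) N := by
    rintro _ ⟨t, ht, x, hx, y, hy, hc, rfl⟩
    rcases eq_or_lt_of_le ht.2 with h | h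
    · subst h
      exact Or.inl (Cup.unique ht hx hy hz hz hc h00)
    · exact Or.inr (hneg t ⟨ht.1, h⟩ x hx y hy hc)
  have hss := hN _ V hVsub hVc
  obtain ⟨x, hx, y, hy, hc⟩ := hex (-1) ⟨le_rfl, by norm_num⟩
  have h1 : A (x, -1) = A (0, 0) :=
    hss ⟨-1, ⟨le_rfl, by norm_num⟩, x, hx, y, hy, hc, rfl⟩
      ⟨0, ⟨by norm_num, le_rfl⟩, 0, hz, 0, hz, h00, rfl⟩
  exact h0 (h1 ▸ hneg (-1) ⟨le_rfl, by norm_num⟩ x hx y hy hc)

end Pool.Agent.Lib.MP_88a170_gt
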