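import Mathlib
import Pool.Agent.Lib.MP_88a170_gt.Core

open Set Topology Metric

namespace Pool.Agent.Lib.MP_88a170_gt

/-- The map is constant on the segment from `q` to `q + r • d`. -/
def Ray {F : Type*} (A : ℝ × ℝ → F) (q d : ℝ × ℝ) (r : ℝ) : Prop :=
  ∀ s ∈ Icc (0 : ℝ) r, A (q + s • d) = A q

def Good {F : Type*} (A : ℝ × ℝ → F) (q : ℝ × ℝ) : Prop :=
  ∃ v : ℝ × ℝ, v ≠ 0 ∧ ∃ ε : ℝ, 0 < ε ∧ Ray A q v ε ∧ Ray A q (-v) ε

section basic
variable {F : Type*} {A : ℝ × ℝ → F}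

theorem Ray.mono {q d : ℝ × ℝ} {r r' : ℝ} (h : Ray A q d r) (hr : r' ≤ r) : Ray A q d r' :=
  fun s hs => h s ⟨hs.1, hs.2.trans hr⟩

theorem Ray.smul {q d : ℝ × ℝ} {r c : ℝ} (h : Ray A q d r) (hc : 0 < c) :
    Ray A q (c • d) (r / c) := by
  intro s hs
  rw [smul_smul]
  exact h (s * c) ⟨mul_nonneg hs.1 hc.le, (le_div_iff₀ hc).1 hs.2⟩

theorem Ray.back {q d : ℝ × ℝ} {r : ℝ} (h : Ray A q d r) (hr : 0 ≤ r) :
    Ray A (q + r • d) (-d) r := by
  intro s hs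
  have : q + r • d + s • -d = q + (r - s) • d := by module
  rw [this, h (r - s) ⟨by linarith [hs.2], by linarith [hs.1]⟩, h r ⟨hr, le_rfl⟩]

/-- No corner at `q`: any two constancy segments from `q` are collinear. -/
def NoCorner (A : ℝ × ℝ → F) (q : ℝ × ℝ) : Prop :=
  ∀ (v w : ℝ × ℝ) (r r' : ℝ), v ≠ 0 → 0 < r → 0 < r' → Ray A q v r → Ray A q w r' →
    ∃ c : ℝ, w = c • v

theorem good_ext {q d : ℝ × ℝ} {s : ℝ} (hnc : NoCorner A q) (hg : Good A q) (hd : d ≠ 0)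
    (hs : 0 < s) (h : Ray A q (-d) s) : ∃ ε : ℝ, 0 < ε ∧ Ray A q d ε := by
  obtain ⟨v, hv, ε, hε, h1, h2⟩ := hg
  obtain ⟨c, hc⟩ := hnc v (-d) ε s hv hε hs h1 h
  have hc0 : c ≠ 0 := by
    rintro rfl
    exact hd (by simpa using hc)
  rcases lt_or_gt_of_ne hc0 with hneg | hpos
  · have : d = (-c) • v := by rw [neg_smul, ← hc, neg_neg]
    rw [this]
    exact ⟨_, div_pos hε (by linarith), h1.smul (by linarith)⟩
  · have : d = c • (-v) := by rw [smul_neg, ← hc, neg_neg]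
    rw [this]
    exact ⟨_, div_pos hε hpos, h2.smul hpos⟩

theorem Good.unit {q : ℝ × ℝ} (hg : Good A q) :
    ∃ d : ℝ × ℝ, ‖d‖ = 1 ∧ ∃ ε : ℝ, 0 < ε ∧ Ray A q d ε ∧ Ray A q (-d) ε := by
  obtain ⟨v, hv, ε, hε, h1, h2⟩ := hg
  have hn : 0 < ‖v‖⁻¹ := inv_pos.2 (norm_pos_iff.2 hv)
  refine ⟨‖v‖⁻¹ • v, ?_, ε / ‖v‖⁻¹, div_pos hε hn, h1.smul hn, ?_⟩
  · rw [norm_smul, norm_inv, norm_norm, inv_mul_cancel₀ (norm_ne_zero_iff.2 hv)]
  · rw [← smul_neg]; exact h2.smul hn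

end basic

variable {F : Type*} [TopologicalSpace F] [T2Space F] {A : ℝ × ℝ → F}

theorem extend (hA : Continuous A) {q d : ℝ × ℝ} {r : ℝ}
    (h : ∀ s ∈ Ico (0 : ℝ) r, Ray A q d s → ∃ ε : ℝ, 0 < ε ∧ Ray A (q + s • d) d ε) :
    Ray A q d r := by
  have hcl : IsClosed {s : ℝ | A (q + s • d) = A q} :=
    isClosed_eq (by fun_prop) continuous_const
  refine IsClosed.Icc_subset_of_forall_mem_nhdsGT_of_Icc_subset
    (s := {s : ℝ | A (q + s • d) = A q}) (hcl.inter isClosed_Icc)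
    (show A (q + (0 : ℝ) • d) = A q by simp) ?_
  intro t ht hsub
  obtain ⟨ε, hε, hray⟩ := h t ht hsub
  have hmem : Ioc t (t + ε) ∈ 𝓝[>] t := Ioc_mem_nhdsGT (by linarith)
  filter_upwards [hmem] with s hs
  have h1 := hray (s - t) ⟨by linarith [hs.1], by linarith [hs.2]⟩
  have h2 : q + t • d + (s - t) • d = q + s • d := by module
  rw [h2] at h1
  exact h1.trans (hsub ⟨ht.1, le_rfl⟩)

theorem isClosed_ray (hA : Continuous A) {X : Type*} [TopologicalSpace X]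
    {q d : X → ℝ × ℝ} (hq : Continuous q) (hd : Continuous d) (r : ℝ) :
    IsClosed {z | Ray A (q z) (d z) r} := by
  have : {z | Ray A (q z) (d z) r} =
      ⋂ s ∈ Icc (0 : ℝ) r, {z | A (q z + s • d z) = A (q z)} := by
    ext z; simp [Ray]
  rw [this]
  refine isClosed_biInter fun s _ => isClosed_eq ?_ ?_ <;> fun_prop

theorem isClosed_chord (hA : Continuous A) (r : ℝ) :
    IsClosed {q : ℝ × ℝ | ∃ d ∈ sphere (0 : ℝ × ℝ) 1, Ray A q d r ∧ Ray A q (-d) r} := by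
  refine isClosed_exists_compact (isCompact_sphere _ _) ?_
  exact (isClosed_ray hA (q := fun z : (ℝ × ℝ) × ℝ × ℝ => z.1)
    (d := fun z : (ℝ × ℝ) × ℝ × ℝ => z.2) continuous_fst continuous_snd r).inter
    (isClosed_ray hA (q := fun z : (ℝ × ℝ) × ℝ × ℝ => z.1)
    (d := fun z : (ℝ × ℝ) × ℝ × ℝ => -z.2) continuous_fst continuous_snd.neg r)

theorem norm_dir {a : ℝ} (ha : a ∈ Icc (-1 : ℝ) 1) : ‖((a, 1) : ℝ × ℝ)‖ = 1 := by
  rw [Prod.norm_mk, norm_one, Real.norm_eq_abs]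
  exact max_eq_right (abs_le.2 ha)

theorem good_of_cone (hA : Continuous A) {N : Set F}
    (hN : ∀ β, IsTotallyDisconnected (insert β N))
    (L : (ℝ × ℝ) →ₗ[ℝ] (ℝ × ℝ)) (hL : ∀ v, ‖L v‖ = ‖v‖) {z : ℝ × ℝ} {r : ℝ} (hr : 0 < r)
    (hnc : ∀ q ∈ ball z (2 * r), A q ∉ N → NoCorner A q) (hz : A z ∉ N)
    (hbad : ∀ q ∈ ball z (2 * r), A q ∉ N → ¬ Good A q →
      ∃ a ∈ Icc (-1 : ℝ) 1, Ray A q (L (a, 1)) r) : Good A z := by
  by_contra hzb
  have hinj : Function.Injective L := by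
    rw [injective_iff_map_eq_zero]
    intro v hv
    rw [← norm_eq_zero, ← hL, hv, norm_zero]
  have hsub : ball z r ⊆ ball z (2 * r) := ball_subset_ball (by linarith)
  have hext : ∀ q ∈ ball z r, A q ∉ N → ∀ d : ℝ × ℝ, ‖d‖ = 1 →
      (∀ a ∈ Icc (-1 : ℝ) 1, -d ≠ L (a, 1)) → (∃ ε : ℝ, 0 < ε ∧ Ray A q d ε) → Ray A q d r := by
    intro q hq hg d hd hne hinit
    have hd0 : d ≠ 0 := by
      rintro rfl
      simp at hd
    refine extend hA fun s hs hray => ?_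
    rcases eq_or_lt_of_le hs.1 with h0 | h0
    · rw [← h0]; simpa using hinit
    have he : q + s • d ∈ ball z (2 * r) := by
      rw [mem_ball, dist_eq_norm] at hq ⊢
      have : q + s • d - z = (q - z) + s • d := by abel
      rw [this]
      have h1 : ‖s • d‖ = s := by rw [norm_smul, hd, mul_one, Real.norm_of_nonneg hs.1]
      linarith [norm_add_le (q - z) (s • d), hs.2]
    have hge : A (q + s • d) ∉ N := by rwa [hray s ⟨hs.1, le_rfl⟩]
    have hback := hray.back hs.1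
    by_cases hgood : Good A (q + s • d)
    · exact good_ext (hnc _ he hge) hgood hd0 h0 hback
    obtain ⟨a, ha, hup⟩ := hbad _ he hge hgood
    obtain ⟨c, hc⟩ := hnc _ he hge (-d) (L (a, 1)) s r (neg_ne_zero.2 hd0) h0 hr hback hup
    have hc1 : |c| = 1 := by
      have := congrArg norm hc
      rw [hL, norm_dir ha, norm_smul, norm_neg, hd, mul_one, Real.norm_eq_abs] at this
      exact this.symm
    rcases (abs_eq zero_le_one).1 hc1 with h1 | h1
    · rw [h1, one_smul] at hc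
      exact absurd hc.symm (hne a ha)
    · rw [h1] at hc
      have : L (a, 1) = d := by rw [hc]; simp
      exact ⟨r, hr, this ▸ hup⟩
  have hopp : ∀ a ∈ Icc (-1 : ℝ) 1, ∀ b ∈ Icc (-1 : ℝ) 1, -L (a, 1) ≠ L (b, 1) := by
    intro a _ b _ h
    rw [← map_neg] at h
    have := congrArg Prod.snd (hinj h)
    simp at this
    linarith
  have htype : ∀ q ∈ ball z r, A q ∉ N → (∃ a ∈ Icc (-1 : ℝ) 1, Ray A q (L (a, 1)) r) ∨
      ∃ d ∈ sphere (0 : ℝ × ℝ) 1, Ray A q d r ∧ Ray A q (-d) r := by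
    intro q hq hg
    by_cases hgood : Good A q
    swap
    · exact Or.inl (hbad q (hsub hq) hg hgood)
    obtain ⟨d, hd, ε, hε, h1, h2⟩ := hgood.unit
    by_cases hc1 : ∃ a ∈ Icc (-1 : ℝ) 1, d = L (a, 1)
    · obtain ⟨a, ha, rfl⟩ := hc1
      exact Or.inl ⟨a, ha, hext q hq hg _ hd (hopp a ha) ⟨ε, hε, h1⟩⟩
    by_cases hc2 : ∃ a ∈ Icc (-1 : ℝ) 1, -d = L (a, 1)
    · obtain ⟨a, ha, hda⟩ := hc2
      rw [hda] at h2
      exact Or.inl ⟨a, ha, hext q hq hg _ (by rw [hL, norm_dir ha]) (hopp a ha) ⟨ε, hε, h2⟩⟩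
    push Not at hc1 hc2
    refine Or.inr ⟨d, by simpa using hd, hext q hq hg d hd hc2 ⟨ε, hε, h1⟩,
      hext q hq hg (-d) (by rwa [norm_neg]) (by simpa using hc1) ⟨ε, hε, h2⟩⟩
  have hzT : z ∈ {q : ℝ × ℝ | ∃ d ∈ sphere (0 : ℝ × ℝ) 1, Ray A q d r ∧ Ray A q (-d) r}ᶜ := by
    rintro ⟨d, hd, h1, h2⟩
    refine hzb ⟨d, ?_, r, hr, h1, h2⟩
    rintro rfl
    simp at hd
  obtain ⟨ρ, hρ, hball⟩ := Metric.isOpen_iff.1 (isClosed_chord hA r).isOpen_compl z hzT
  obtain ⟨l, hl0, hlρ, hlr⟩ : ∃ l : ℝ, 0 < l ∧ 4 * l ≤ ρ ∧ 4 * l ≤ r :=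
    ⟨min ρ r / 4, by positivity, by linarith [min_le_left ρ r], by linarith [min_le_right ρ r]⟩
  have hLc : Continuous L := L.continuous_of_finiteDimensional
  set B : ℝ × ℝ → F := fun p => A (z + l • L p) with hB
  have hBc : Continuous B := by fun_prop
  have hnear : ∀ x ∈ Icc (-3 : ℝ) 3, ∀ t ∈ Icc (-1 : ℝ) 0, dist (z + l • L (x, t)) z < 4 * l := by
    intro x hx t ht
    rw [dist_eq_norm, add_sub_cancel_left, norm_smul, hL, Real.norm_of_nonneg hl0.le,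
      Prod.norm_mk, Real.norm_eq_abs, Real.norm_eq_abs]
    have : max |x| |t| ≤ 3 :=
      max_le (abs_le.2 hx) (abs_le.2 ⟨by linarith [ht.1], by linarith [ht.2]⟩)
    nlinarith
  have hUp : ∀ x t a : ℝ, Up B x t a ↔ Ray A (z + l • L (x, t)) (L (a, 1)) (2 * l) := by
    intro x t a
    have key : ∀ s : ℝ, z + l • L (x + s * a, t + s) = z + l • L (x, t) + (s * l) • L (a, 1) := by
      intro s
      have : ((x + s * a, t + s) : ℝ × ℝ) = (x, t) + s • (a, 1) := by simp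
      rw [this, map_add, map_smul]; module
    constructor
    · intro h s hs
      have h1 := h (s / l) ⟨div_nonneg hs.1 hl0.le, (div_le_iff₀ hl0).2 hs.2⟩
      simp only [hB] at h1
      rwa [key, div_mul_cancel₀ _ hl0.ne'] at h1
    · intro h s hs
      simp only [hB]
      rw [key]
      exact h (s * l) ⟨mul_nonneg hs.1 hl0.le, by nlinarith [hs.2]⟩
  have hne0 : ∀ a : ℝ, L (a, 1) ≠ 0 := by
    intro a h
    have := hinj (h.trans (map_zero L).symm)
    simp at this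
  have hup : ∀ x ∈ Icc (-3 : ℝ) 3, ∀ t ∈ Icc (-1 : ℝ) 0, B (x, t) ∉ N →
      ∃ a ∈ Icc (-1 : ℝ) 1, Up B x t a := by
    intro x hx t ht hg
    have hn := hnear x hx t ht
    rcases htype (z + l • L (x, t)) (mem_ball.2 (by linarith)) hg with ⟨a, ha, h⟩ | h
    · exact ⟨a, ha, (hUp x t a).2 (h.mono (by linarith))⟩
    · exact absurd h (hball (mem_ball.2 (by linarith)))
  obtain ⟨t, ht, x, a, hxa, hu⟩ := core hBc hN hup
    (by
      intro x hx t ht hg a b ha hb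
      have hn := hnear x hx t ht
      obtain ⟨c, hc⟩ := hnc (z + l • L (x, t)) (mem_ball.2 (by linarith)) hg _ _ _ _ (hne0 a)
        (by linarith) (by linarith) ((hUp x t a).1 ha) ((hUp x t b).1 hb)
      rw [← map_smul] at hc
      have h1 := hinj hc
      simp only [Prod.smul_mk, smul_eq_mul, mul_one, Prod.mk.injEq] at h1
      rw [h1.1, ← h1.2, one_mul])
    (by
      intro x hx t ht hg y hxy hconst
      have hn := hnear x hx t ht
      obtain ⟨a, -, ha⟩ := hup x hx t ht hg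
      have hray : Ray A (z + l • L (x, t)) (L (1, 0)) (l * (y - x)) := by
        intro s hs
        have h1 := hconst (x + s / l)
          ⟨by linarith [div_nonneg hs.1 hl0.le], by
            have := (div_le_iff₀' hl0).2 hs.2
            linarith⟩
        simp only [hB] at h1
        have h2 : ((x + s / l, t) : ℝ × ℝ) = (x, t) + (s / l) • (1, 0) := by simp
        rw [h2, map_add, map_smul, smul_add, smul_smul, mul_div_cancel₀ _ hl0.ne',
          ← add_assoc] at h1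
        exact h1
      obtain ⟨c, hc⟩ := hnc (z + l • L (x, t)) (mem_ball.2 (by linarith)) hg _ _ _ _ (hne0 a)
        (by linarith) (mul_pos hl0 (by linarith)) ((hUp x t a).1 ha) hray
      rw [← map_smul] at hc
      have h1 := hinj hc
      simp only [Prod.smul_mk, smul_eq_mul, mul_one, Prod.mk.injEq] at h1
      rw [← h1.2] at h1
      simp at h1)
    (by simpa [hB, ← Prod.zero_eq_mk] using hz)
  have hray := (hUp x t a).1 hu
  have hzq : z = z + l • L (x, t) + (-t * l) • L (a, 1) := by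
    have : ((x, t) : ℝ × ℝ) = t • (a, 1) := by
      simp only [Prod.smul_mk, smul_eq_mul, mul_one, Prod.mk.injEq, and_true]
      linarith
    rw [this, map_smul]; module
  have htl : 0 < -t * l := mul_pos (by linarith [ht.2]) hl0
  have htl' : -t * l ≤ l := by nlinarith [ht.1]
  have hAz : A z = A (z + l • L (x, t)) := by
    conv_lhs => rw [hzq]
    exact hray _ ⟨htl.le, by linarith⟩
  refine hzb ⟨L (a, 1), hne0 a, -t * l, htl, fun s hs => ?_, fun s hs => ?_⟩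
  · have h1 := hray (-t * l + s) ⟨by linarith [hs.1], by linarith [hs.2]⟩
    have h2 : z + l • L (x, t) + (-t * l + s) • L (a, 1) = z + s • L (a, 1) := by
      conv_rhs => rw [hzq]
      module
    rw [h2] at h1
    rw [h1, hAz]
  · have h1 := hray (-t * l - s) ⟨by linarith [hs.2], by linarith [hs.1]⟩
    have h2 : z + l • L (x, t) + (-t * l - s) • L (a, 1) = z + s • -L (a, 1) := by
      conv_rhs => rw [hzq]
      module
    rw [h2] at h1
    rw [h1, hAz]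

/-- Four isometries of the plane with the maximum norm. -/
noncomputable def Lf : Fin 4 → ((ℝ × ℝ) →ₗ[ℝ] (ℝ × ℝ)) :=
  ![LinearMap.id, (LinearMap.fst ℝ ℝ ℝ).prod (-LinearMap.snd ℝ ℝ ℝ),
    (LinearMap.snd ℝ ℝ ℝ).prod (LinearMap.fst ℝ ℝ ℝ),
    (-LinearMap.snd ℝ ℝ ℝ).prod (LinearMap.fst ℝ ℝ ℝ)]

theorem norm_Lf (j : Fin 4) (v : ℝ × ℝ) : ‖Lf j v‖ = ‖v‖ := by
  fin_cases j <;> simp [Lf, Prod.norm_def, max_comm]

theorem exists_Lf {v : ℝ × ℝ} (hv : v ≠ 0) :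
    ∃ j : Fin 4, ∃ a ∈ Icc (-1 : ℝ) 1, ∃ m : ℝ, 0 < m ∧ Lf j (a, 1) = m • v := by
  obtain ⟨x, y⟩ := v
  have aux : ∀ x y : ℝ, |x| ≤ |y| → y ≠ 0 → x / |y| ∈ Icc (-1 : ℝ) 1 := by
    intro x y h hy
    have hp : 0 < |y| := abs_pos.2 hy
    refine abs_le.1 ?_
    rw [abs_div, abs_abs]
    exact (div_le_one hp).2 h
  rcases le_total |x| |y| with h | h
  · have hy : y ≠ 0 := by
      rintro rfl
      have : x = 0 := by simpa using h
      exact hv (by simp [this])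
    rcases lt_or_gt_of_ne hy with h1 | h1
    · refine ⟨1, x / |y|, aux x y h hy, |y|⁻¹, by positivity, ?_⟩
      simp [Lf, abs_of_neg h1]
      constructor <;> field_simp
    · refine ⟨0, x / |y|, aux x y h hy, |y|⁻¹, by positivity, ?_⟩
      simp [Lf, abs_of_pos h1]
      constructor <;> field_simp
  · have hx : x ≠ 0 := by
      rintro rfl
      have : y = 0 := by simpa using h
      exact hv (by simp [this])
    rcases lt_or_gt_of_ne hx with h1 | h1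
    · refine ⟨3, y / |x|, aux y x h hx, |x|⁻¹, by positivity, ?_⟩
      simp [Lf, abs_of_neg h1]
      constructor <;> field_simp
    · refine ⟨2, y / |x|, aux y x h hx, |x|⁻¹, by positivity, ?_⟩
      simp [Lf, abs_of_pos h1]
      constructor <;> field_simp

theorem good_of_generic (hA : Continuous A) {N : Set F}
    (hN : ∀ β, IsTotallyDisconnected (insert β N)) {U : Set (ℝ × ℝ)} (hU : IsOpen U)
    (hst : ∀ q ∈ U, ∃ v : ℝ × ℝ, v ≠ 0 ∧ ∃ r : ℝ, 0 < r ∧ Ray A q v r)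
    (hnc : ∀ q ∈ U, A q ∉ N → NoCorner A q) {p : ℝ × ℝ} (hp : p ∈ U) (hg : A p ∉ N) :
    Good A p := by
  by_contra hpb
  obtain ⟨R, hR, hRU⟩ := nhds_basis_closedBall.mem_iff.1 (hU.mem_nhds hp)
  set S : Set (ℝ × ℝ) := {q | q ∈ ball p R ∧ A q ∉ N ∧ ¬ Good A q} with hS
  have hZU : closure S ⊆ U := by
    refine (closure_minimal (fun q hq => ball_subset_closedBall hq.1) isClosed_closedBall).trans hRU
  have : CompleteSpace (closure S) := isClosed_closure.completeSpace_coe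
  have : Nonempty (closure S) := ⟨⟨p, subset_closure ⟨mem_ball_self hR, hg, hpb⟩⟩⟩
  set E : ℕ × Fin 4 → Set (ℝ × ℝ) := fun i =>
    {q | ∃ a ∈ Icc (-1 : ℝ) 1, Ray A q (Lf i.2 (a, 1)) (1 / ((i.1 : ℝ) + 1))} with hE
  have hEc : ∀ i, IsClosed (E i) := by
    intro i
    refine isClosed_exists_compact isCompact_Icc ?_
    have hLc : Continuous (Lf i.2) := (Lf i.2).continuous_of_finiteDimensional
    exact isClosed_ray hA (q := fun z : (ℝ × ℝ) × ℝ => z.1)
      (d := fun z : (ℝ × ℝ) × ℝ => Lf i.2 (z.2, 1)) continuous_fst (by fun_prop) _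
  obtain ⟨i, ⟨q, hq⟩⟩ := nonempty_interior_of_iUnion_of_closed
    (f := fun i => (Subtype.val : closure S → ℝ × ℝ) ⁻¹' E i)
    (fun i => (hEc i).preimage continuous_subtype_val) (by
      refine eq_univ_of_forall fun q => ?_
      obtain ⟨v, hv, r, hr, hray⟩ := hst q (hZU q.2)
      obtain ⟨j, a, ha, m, hm, hj⟩ := exists_Lf hv
      obtain ⟨n, hn⟩ := exists_nat_one_div_lt (div_pos hr hm)
      refine mem_iUnion.2 ⟨(n, j), a, ha, ?_⟩
      simp only
      rw [hj]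
      exact (hray.smul hm).mono hn.le)
  obtain ⟨O', hO'sub, hO'open, hqO'⟩ := mem_interior.1 hq
  obtain ⟨O, hO, rfl⟩ := isOpen_induced_iff.1 hO'open
  obtain ⟨z, hzO, hzS⟩ := mem_closure_iff.1 q.2 O hO hqO'
  obtain ⟨ρ, hρ, hρsub⟩ := Metric.isOpen_iff.1 (hO.inter isOpen_ball) z ⟨hzO, hzS.1⟩
  have hn : (0 : ℝ) < 1 / ((i.1 : ℝ) + 1) := by positivity
  obtain ⟨r, hr, hr1, hr2⟩ : ∃ r : ℝ, 0 < r ∧ 2 * r ≤ ρ ∧ r ≤ 1 / ((i.1 : ℝ) + 1) :=
    ⟨min (ρ / 2) (1 / ((i.1 : ℝ) + 1)), lt_min (by linarith) hn,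
      by linarith [min_le_left (ρ / 2) (1 / ((i.1 : ℝ) + 1))], min_le_right _ _⟩
  have hb : ball z (2 * r) ⊆ O ∩ ball p R := (ball_subset_ball hr1).trans hρsub
  refine hzS.2.2 (good_of_cone hA hN (Lf i.2) (norm_Lf i.2) hr
    (fun q hq => hnc q (hRU (ball_subset_closedBall (hb hq).2))) hzS.2.1 ?_)
  intro q' hq' hg' hb'
  have hmem : q' ∈ closure S := subset_closure ⟨(hb hq').2, hg', hb'⟩
  obtain ⟨a, ha, hray⟩ := hO'sub (a := ⟨q', hmem⟩) (hb hq').1
  exact ⟨a, ha, hray.mono hr2⟩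

theorem good_of_semi (hA : Continuous A) {N : Set F}
    (hN : ∀ β, IsTotallyDisconnected (insert β N)) {U : Set (ℝ × ℝ)} (hU : IsOpen U)
    (hst : ∀ q ∈ U, ∃ v : ℝ × ℝ, v ≠ 0 ∧ ∃ r : ℝ, 0 < r ∧ Ray A q v r)
    (hnc : ∀ q ∈ U, A q ∉ N → NoCorner A q) {p : ℝ × ℝ} (hp : p ∈ U) : Good A p := by
  obtain ⟨R, hR, hRU⟩ := Metric.isOpen_iff.1 hU p hp
  have hext : ∀ q ∈ ball p (R / 2), A q ∉ N → ∀ d : ℝ × ℝ, ‖d‖ = 1 →
      (∃ ε : ℝ, 0 < ε ∧ Ray A q d ε) → Ray A q d (R / 2) := by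
    intro q hq hg d hd hinit
    have hd0 : d ≠ 0 := by
      rintro rfl
      simp at hd
    refine extend hA fun s hs hray => ?_
    rcases eq_or_lt_of_le hs.1 with h0 | h0
    · rw [← h0]; simpa using hinit
    have he : q + s • d ∈ ball p R := by
      rw [mem_ball, dist_eq_norm] at hq ⊢
      have : q + s • d - p = (q - p) + s • d := by abel
      rw [this]
      have h1 : ‖s • d‖ = s := by rw [norm_smul, hd, mul_one, Real.norm_of_nonneg hs.1]
      linarith [norm_add_le (q - p) (s • d), hs.2]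
    have hge : A (q + s • d) ∉ N := by rwa [hray s ⟨hs.1, le_rfl⟩]
    exact good_ext (hnc _ (hRU he) hge) (good_of_generic hA hN hU hst hnc (hRU he) hge) hd0 h0
      (hray.back hs.1)
  by_contra hpb
  have hpT : p ∈ {q : ℝ × ℝ | ∃ d ∈ sphere (0 : ℝ × ℝ) 1,
      Ray A q d (R / 2) ∧ Ray A q (-d) (R / 2)}ᶜ := by
    rintro ⟨d, hd, h1, h2⟩
    refine hpb ⟨d, ?_, R / 2, by linarith, h1, h2⟩
    rintro rfl
    simp at hd
  obtain ⟨ρ, hρ, hball⟩ := Metric.isOpen_iff.1 (isClosed_chord hA (R / 2)).isOpen_compl p hpT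
  obtain ⟨l, hl0, hlρ, hlr⟩ : ∃ l : ℝ, 0 < l ∧ l ≤ ρ ∧ l ≤ R / 2 :=
    ⟨min ρ (R / 2), lt_min hρ (by linarith), min_le_left _ _, min_le_right _ _⟩
  have hsubN : A '' ball p l ⊆ insert (A p) N := by
    rintro _ ⟨q, hq, rfl⟩
    refine Or.inr ?_
    by_contra hg
    have hq1 : q ∈ ball p (R / 2) := ball_subset_ball hlr hq
    obtain ⟨d, hd, ε, hε, h1, h2⟩ :=
      (good_of_generic hA hN hU hst hnc (hRU (ball_subset_ball (by linarith) hq1)) hg).unit
    exact hball (ball_subset_ball hlρ hq) ⟨d, by simpa using hd, hext q hq1 hg d hd ⟨ε, hε, h1⟩,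
      hext q hq1 hg (-d) (by rwa [norm_neg]) ⟨ε, hε, h2⟩⟩
  have hss := hN _ _ hsubN ((convex_ball p l).isPreconnected.image _ hA.continuousOn)
  have hconst : ∀ d : ℝ × ℝ, ‖d‖ = 1 → Ray A p d (l / 2) := by
    intro d hd s hs
    refine hss ⟨_, ?_, rfl⟩ ⟨p, mem_ball_self hl0, rfl⟩
    rw [mem_ball, dist_eq_norm, add_sub_cancel_left, norm_smul, hd, mul_one,
      Real.norm_of_nonneg hs.1]
    linarith [hs.2]
  have h01 : ‖((0, 1) : ℝ × ℝ)‖ = 1 := by simp [Prod.norm_def]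
  exact hpb ⟨(0, 1), by simp, l / 2, by linarith, hconst _ h01, hconst _ (by rwa [norm_neg])⟩

end Pool.Agent.Lib.MP_88a170_gt
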