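import Mathlib
import Pool.Agent.Lib.MP_88a170_gt.Baire

open Set Topology Metric MeasureTheory

namespace Pool.Agent.Lib.MP_88a170_gt

theorem null_of_littleo {ι : Type*} (S : Set ι) (ρ ψ : ι → ℝ)
    (h : ∀ c ∈ S, ∀ ε : ℝ, 0 < ε → ∃ δ : ℝ, 0 < δ ∧ ∀ c' ∈ S, |ρ c' - ρ c| ≤ δ →
      |ψ c' - ψ c| ≤ ε * |ρ c' - ρ c|) : volume (ψ '' S) = 0 := by
  classical
  set k : ℝ → ℝ := fun x => if hx : ∃ c ∈ S, ρ c = x then ψ hx.choose else 0 with hk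
  have hkρ : ∀ c ∈ S, k (ρ c) = ψ c := by
    intro c hc
    have hx : ∃ c' ∈ S, ρ c' = ρ c := ⟨c, hc, rfl⟩
    simp only [hk, dif_pos hx]
    obtain ⟨δ, hδ, hh⟩ := h c hc 1 one_pos
    have h1 := hh _ hx.choose_spec.1 (by rw [hx.choose_spec.2]; simpa using hδ.le)
    rw [hx.choose_spec.2] at h1
    simpa [sub_eq_zero] using h1
  have himg : ψ '' S = k '' (ρ '' S) := by
    rw [image_image]
    exact image_congr fun c hc => (hkρ c hc).symm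
  rw [himg]
  refine addHaar_image_eq_zero_of_det_fderivWithin_eq_zero volume
    (f' := fun _ => (0 : ℝ →L[ℝ] ℝ)) ?_ (fun _ _ => by simp [ContinuousLinearMap.det])
  rintro _ ⟨c, hc, rfl⟩
  rw [hasFDerivWithinAt_iff_isLittleO, Asymptotics.isLittleO_iff]
  intro ε hε
  obtain ⟨δ, hδ, hh⟩ := h c hc ε hε
  filter_upwards [self_mem_nhdsWithin, mem_nhdsWithin_of_mem_nhds (closedBall_mem_nhds _ hδ)]
  rintro _ ⟨c', hc', rfl⟩ hb
  rw [mem_closedBall, Real.dist_eq] at hb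
  simpa [hkρ c hc, hkρ c' hc'] using hh c' hc' hb

theorem mvt {g : ℝ × ℝ → ℝ} {B : ℝ × ℝ → (ℝ × ℝ →L[ℝ] ℝ)} (P v : ℝ × ℝ) (β : ℝ × ℝ →L[ℝ] ℝ)
    (ω : ℝ) (hg : ∀ s ∈ Icc (0 : ℝ) 1, HasFDerivAt g (B (P + s • v)) (P + s • v))
    (hb : ∀ s ∈ Icc (0 : ℝ) 1, ‖B (P + s • v) - β‖ ≤ ω) :
    |g (P + v) - g P - β v| ≤ ω * ‖v‖ := by
  have hd : ∀ s ∈ Icc (0 : ℝ) 1, HasDerivWithinAt (fun s : ℝ => g (P + s • v) - s * β v)
      ((B (P + s • v) - β) v) (Icc (0 : ℝ) 1) s := by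
    intro s hs
    have h1 : HasDerivAt (fun s : ℝ => P + s • v) v s := by
      simpa using ((hasDerivAt_id s).smul_const v).const_add P
    have h2 := (hg s hs).comp_hasDerivAt s h1
    have h3 : HasDerivAt (fun s : ℝ => s * β v) (β v) s := by
      simpa using (hasDerivAt_id s).mul_const (β v)
    exact (h2.sub h3).hasDerivWithinAt
  have h := norm_image_sub_le_of_norm_deriv_le_segment_01' hd (C := ω * ‖v‖) (fun s hs =>
    ((B (P + s • v) - β).le_opNorm v).trans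
      (mul_le_mul_of_nonneg_right (hb s (Ico_subset_Icc_self hs)) (norm_nonneg _)))
  simp only [one_smul, one_mul, zero_smul, add_zero, zero_mul, sub_zero, Real.norm_eq_abs] at h
  convert h using 2
  ring

structure Bent (B : ℝ × ℝ → (ℝ × ℝ →L[ℝ] ℝ)) (γ : ℝ → ℝ) (β : ℝ × ℝ →L[ℝ] ℝ) (a b : ℝ) :
    Prop where
  cont : Continuous γ
  bdd : ∀ y ∈ Icc (-3 : ℝ) 3, |γ y| ≤ 20
  val : ∀ y ∈ Icc (-3 : ℝ) 3, B (γ y, y) = β
  low : ∀ s ∈ Icc (0 : ℝ) 1, γ (-3 + s * 2) = γ (-3) + s * (2 * a)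
  up : ∀ s ∈ Icc (0 : ℝ) 1, γ (1 + s * 2) = γ 1 + s * (2 * b)
  ha : a ∈ Icc (-2 : ℝ) (-1 / 2)
  hb : b ∈ Icc (1 / 2 : ℝ) 2

theorem strip {g : ℝ × ℝ → ℝ} {B : ℝ × ℝ → (ℝ × ℝ →L[ℝ] ℝ)}
    (hg : ∀ p : ℝ × ℝ, ‖p‖ ≤ 20 → HasFDerivAt g (B p) p) {γ γ' : ℝ → ℝ}
    {β β' : ℝ × ℝ →L[ℝ] ℝ} {a a' h ε : ℝ} (hh : h ∈ Icc (-3 : ℝ) 1)
    (bdd : ∀ y ∈ Icc (-3 : ℝ) 3, |γ y| ≤ 20) (bdd' : ∀ y ∈ Icc (-3 : ℝ) 3, |γ' y| ≤ 20)
    (val : ∀ y ∈ Icc (-3 : ℝ) 3, B (γ y, y) = β) (val' : ∀ y ∈ Icc (-3 : ℝ) 3, B (γ' y, y) = β')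
    (lin : ∀ s ∈ Icc (0 : ℝ) 1, γ (h + s * 2) = γ h + s * (2 * a))
    (lin' : ∀ s ∈ Icc (0 : ℝ) 1, γ' (h + s * 2) = γ' h + s * (2 * a'))
    (h1 : ∀ s ∈ Icc (0 : ℝ) 1, ‖B (γ h + s * (γ' h - γ h), h) - β‖ ≤ ε)
    (h2 : ∀ s ∈ Icc (0 : ℝ) 1,
      ‖B (γ (h + 2) + s * (γ' (h + 2) - γ (h + 2)), h + 2) - β‖ ≤ ε) :
    |(β' - β) (2 * a', 2)| ≤ ε * (|γ' h - γ h| + |γ' (h + 2) - γ (h + 2)|) := by
  have hn : ∀ x y : ℝ, |x| ≤ 20 → y ∈ Icc (-3 : ℝ) 3 → ‖((x, y) : ℝ × ℝ)‖ ≤ 20 := by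
    intro x y hx hy
    rw [Prod.norm_mk, Real.norm_eq_abs, Real.norm_eq_abs]
    exact max_le hx (abs_le.2 ⟨by linarith [hy.1], by linarith [hy.2]⟩)
  have side : ∀ {γ : ℝ → ℝ} {β : ℝ × ℝ →L[ℝ] ℝ} {a : ℝ}, (∀ y ∈ Icc (-3 : ℝ) 3, |γ y| ≤ 20) →
      (∀ y ∈ Icc (-3 : ℝ) 3, B (γ y, y) = β) →
      (∀ s ∈ Icc (0 : ℝ) 1, γ (h + s * 2) = γ h + s * (2 * a)) →
      g (γ (h + 2), h + 2) - g (γ h, h) = β (2 * a, 2) := by
    intro γ β a bdd val lin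
    have e : ∀ s ∈ Icc (0 : ℝ) 1, ((γ h, h) : ℝ × ℝ) + s • (2 * a, 2) =
        (γ (h + s * 2), h + s * 2) := by
      intro s hs
      rw [lin s hs]; simp
    have hm : ∀ s ∈ Icc (0 : ℝ) 1, h + s * 2 ∈ Icc (-3 : ℝ) 3 := fun s hs =>
      ⟨by linarith [hh.1, hs.1], by linarith [hh.2, hs.2]⟩
    have := mvt (g := g) (B := B) (γ h, h) (2 * a, 2) β 0
      (fun s hs => by rw [e s hs]; exact hg _ (hn _ _ (bdd _ (hm s hs)) (hm s hs)))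
      (fun s hs => by rw [e s hs, val _ (hm s hs)]; simp)
    have e1 := e 1 ⟨zero_le_one, le_rfl⟩
    rw [one_smul, one_mul] at e1
    rw [e1, zero_mul] at this
    have := abs_nonpos_iff.1 this
    linarith
  have hor : ∀ y ∈ Icc (-3 : ℝ) 3,
      (∀ s ∈ Icc (0 : ℝ) 1, ‖B (γ y + s * (γ' y - γ y), y) - β‖ ≤ ε) →
      |g (γ' y, y) - g (γ y, y) - β (γ' y - γ y, 0)| ≤ ε * |γ' y - γ y| := by
    intro y hy hb
    have e : ∀ s : ℝ, ((γ y, y) : ℝ × ℝ) + s • (γ' y - γ y, 0) =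
        (γ y + s * (γ' y - γ y), y) := by
      intro s; simp
    have := mvt (g := g) (B := B) (γ y, y) (γ' y - γ y, 0) β ε
      (fun s hs => by
        rw [e s]
        refine hg _ (hn _ _ ?_ hy)
        have b1 := abs_le.1 (bdd y hy)
        have b2 := abs_le.1 (bdd' y hy)
        refine abs_le.2 ⟨?_, ?_⟩ <;> nlinarith [hs.1, hs.2])
      (fun s hs => by rw [e s]; exact hb s hs)
    simpa [Prod.norm_def] using this
  have s1 := side bdd val lin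
  have s2 := side bdd' val' lin'
  have r1 := abs_le.1 (hor h ⟨hh.1, by linarith [hh.2]⟩ h1)
  have r2 := abs_le.1 (hor (h + 2) ⟨by linarith [hh.1], by linarith [hh.2]⟩ h2)
  have l1 := lin 1 ⟨zero_le_one, le_rfl⟩
  have l2 := lin' 1 ⟨zero_le_one, le_rfl⟩
  rw [one_mul, one_mul] at l1 l2
  have e : ((2 * a', 2) : ℝ × ℝ) =
      (2 * a, 2) + (γ' (h + 2) - γ (h + 2), 0) - (γ' h - γ h, 0) := by
    rw [l1, l2]; simp; ring
  have e2 : β (2 * a', 2) =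
      β (2 * a, 2) + β (γ' (h + 2) - γ (h + 2), 0) - β (γ' h - γ h, 0) := by
    rw [e, map_sub, map_add]
  rw [ContinuousLinearMap.sub_apply, abs_le]
  constructor <;> linarith [r1.1, r1.2, r2.1, r2.2]

theorem bent_null {g : ℝ × ℝ → ℝ} {B : ℝ × ℝ → (ℝ × ℝ →L[ℝ] ℝ)} (hB : Continuous B)
    (hg : ∀ p : ℝ × ℝ, ‖p‖ ≤ 20 → HasFDerivAt g (B p) p) (e : ℝ × ℝ) :
    volume {r : ℝ | ∃ γ β a b, Bent B γ β a b ∧ β e = r} = 0 := by
  have key := null_of_littleo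
    {c : (ℝ → ℝ) × (ℝ × ℝ →L[ℝ] ℝ) × ℝ × ℝ | Bent B c.1 c.2.1 c.2.2.1 c.2.2.2}
    (fun c => c.1 (-3) + c.1 (-1) + c.1 1 + c.1 3) (fun c => c.2.1 e) ?_
  · refine measure_mono_null ?_ key
    rintro _ ⟨γ, β, a, b, h, rfl⟩
    exact ⟨(γ, β, a, b), h, rfl⟩
  rintro ⟨γ, β, a, b⟩ hc ε hε
  simp only [mem_setOf_eq] at hc
  set K : ℝ := |e.1| + 3 * |e.2| + 1 with hK
  have hK0 : 0 < K := by positivity
  have hloc : ∀ y ∈ Icc (-3 : ℝ) 3, ∀ᶠ δ in 𝓝[>] (0 : ℝ), ∀ w : ℝ, |w| ≤ δ →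
      ‖B (γ y + w, y) - β‖ ≤ ε / K := by
    intro y hy
    have hcont : Continuous fun w : ℝ => B (γ y + w, y) := by fun_prop
    obtain ⟨δ, hδ, hh⟩ := Metric.continuousAt_iff.1 (hcont.continuousAt (x := 0)) (ε / K)
      (div_pos hε hK0)
    filter_upwards [Ioo_mem_nhdsGT hδ] with d hd w hw
    have := hh (x := w) (by rw [Real.dist_eq, sub_zero]; linarith [hd.2])
    rw [add_zero, hc.val y hy, dist_eq_norm] at this
    exact this.le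
  have m1 : (-3 : ℝ) ∈ Icc (-3 : ℝ) 3 := ⟨by norm_num, by norm_num⟩
  have m2 : (-1 : ℝ) ∈ Icc (-3 : ℝ) 3 := ⟨by norm_num, by norm_num⟩
  have m3 : (1 : ℝ) ∈ Icc (-3 : ℝ) 3 := ⟨by norm_num, by norm_num⟩
  have m4 : (3 : ℝ) ∈ Icc (-3 : ℝ) 3 := ⟨by norm_num, by norm_num⟩
  obtain ⟨δ, ⟨⟨⟨⟨d1, d2⟩, d3⟩, d4⟩, hδ⟩⟩ := (((((hloc _ m1).and (hloc _ m2)).and (hloc _ m3)).and
    (hloc _ m4)).and self_mem_nhdsWithin).exists
  refine ⟨δ, hδ, ?_⟩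
  rintro ⟨γ', β', a', b'⟩ hc' hρ
  simp only [mem_setOf_eq] at hc'
  simp only at hρ ⊢
  by_cases hββ : β' = β
  · rw [hββ, sub_self, abs_zero]; positivity
  have hne : ∀ y ∈ Icc (-3 : ℝ) 3, γ' y - γ y ≠ 0 := by
    intro y hy h
    apply hββ
    rw [← hc'.val y hy, ← hc.val y hy, sub_eq_zero.1 h]
  have hcont : Continuous fun y => γ' y - γ y := hc'.cont.sub hc.cont
  have hsign : (∀ y ∈ Icc (-3 : ℝ) 3, 0 < γ' y - γ y) ∨
      ∀ y ∈ Icc (-3 : ℝ) 3, γ' y - γ y < 0 := by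
    by_contra hcon
    push Not at hcon
    obtain ⟨⟨y1, hy1, h1⟩, ⟨y2, hy2, h2⟩⟩ := hcon
    obtain ⟨y, hy, h⟩ := isPreconnected_Icc.intermediate_value hy1 hy2 hcont.continuousOn
      (show (0 : ℝ) ∈ Icc (γ' y1 - γ y1) (γ' y2 - γ y2) from ⟨h1, h2⟩)
    exact hne y hy h
  set W : ℝ := |γ' (-3) + γ' (-1) + γ' 1 + γ' 3 - (γ (-3) + γ (-1) + γ 1 + γ 3)| with hW
  have hsum : W = |γ' (-3) - γ (-3)| + |γ' (-1) - γ (-1)| + |γ' 1 - γ 1| + |γ' 3 - γ 3| := by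
    rcases hsign with h | h
    · have := h _ m1; have := h _ m2; have := h _ m3; have := h _ m4
      rw [hW, abs_of_pos (by linarith), abs_of_pos (h _ m1), abs_of_pos (h _ m2),
        abs_of_pos (h _ m3), abs_of_pos (h _ m4)]
      ring
    · have := h _ m1; have := h _ m2; have := h _ m3; have := h _ m4
      rw [hW, abs_of_neg (by linarith), abs_of_neg (h _ m1), abs_of_neg (h _ m2),
        abs_of_neg (h _ m3), abs_of_neg (h _ m4)]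
      ring
  have n1 := abs_nonneg (γ' (-3) - γ (-3))
  have n2 := abs_nonneg (γ' (-1) - γ (-1))
  have n3 := abs_nonneg (γ' 1 - γ 1)
  have n4 := abs_nonneg (γ' 3 - γ 3)
  have hsm : ∀ s ∈ Icc (0 : ℝ) 1, ∀ w : ℝ, |w| ≤ δ → |s * w| ≤ δ := by
    intro s hs w hw
    rw [abs_mul, abs_of_nonneg hs.1]
    nlinarith [hs.1, hs.2, abs_nonneg w]
  have e31 : (-3 : ℝ) + 2 = -1 := by norm_num
  have e13 : (1 : ℝ) + 2 = 3 := by norm_num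
  have s1 := strip hg (h := -3) (ε := ε / K) ⟨by norm_num, by norm_num⟩ hc.bdd hc'.bdd hc.val
    hc'.val hc.low hc'.low (fun s hs => d1 _ (hsm s hs _ (by linarith)))
    (fun s hs => by rw [e31]; exact d2 _ (hsm s hs _ (by linarith)))
  have s2 := strip hg (h := 1) (ε := ε / K) ⟨by norm_num, by norm_num⟩ hc.bdd hc'.bdd hc.val
    hc'.val hc.up hc'.up (fun s hs => d3 _ (hsm s hs _ (by linarith)))
    (fun s hs => by rw [e13]; exact d4 _ (hsm s hs _ (by linarith)))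
  rw [e31] at s1
  rw [e13] at s2
  have hlin : ∀ x y : ℝ, (β' - β) (x, y) = x * (β' - β) (1, 0) + y * (β' - β) (0, 1) := by
    intro x y
    have : ((x, y) : ℝ × ℝ) = x • (1, 0) + y • (0, 1) := by simp
    rw [this, map_add, map_smul, map_smul, smul_eq_mul, smul_eq_mul]
  set D1 := (β' - β) (1, 0)
  set D2 := (β' - β) (0, 1)
  rw [hlin] at s1 s2
  set T : ℝ := ε / K * W with hT
  have hεK : 0 < ε / K := div_pos hε hK0
  have t1 : |2 * a' * D1 + 2 * D2| ≤ T := s1.trans (by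
    rw [hT, hsum]; exact mul_le_mul_of_nonneg_left (by linarith) hεK.le)
  have t2 : |2 * b' * D1 + 2 * D2| ≤ T := s2.trans (by
    rw [hT, hsum]; exact mul_le_mul_of_nonneg_left (by linarith) hεK.le)
  have hT0 : 0 ≤ T := (abs_nonneg _).trans t1
  have u1 : |D1| ≤ T := by
    have a1 := abs_le.1 t1
    have a2 := abs_le.1 t2
    have hab : 1 ≤ b' - a' := by linarith [hc'.ha.2, hc'.hb.1]
    rcases le_total 0 D1 with h | h
    · rw [abs_of_nonneg h]; nlinarith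
    · rw [abs_of_nonpos h]; nlinarith
  have u2 : |D2| ≤ 3 * T := by
    have a2 := abs_le.1 t2
    have a3 := abs_le.1 u1
    have b1 := hc'.hb.1
    have b2 := hc'.hb.2
    rw [abs_le]
    constructor <;> nlinarith
  have hfin : β' e - β e = e.1 * D1 + e.2 * D2 := by
    rw [← hlin, ContinuousLinearMap.sub_apply]
  rw [hfin]
  calc |e.1 * D1 + e.2 * D2| ≤ |e.1| * |D1| + |e.2| * |D2| := by
        rw [← abs_mul, ← abs_mul]; exact abs_add_le _ _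
    _ ≤ |e.1| * T + |e.2| * (3 * T) := by gcongr
    _ ≤ K * T := by rw [hK]; nlinarith
    _ = ε * W := by rw [hT]; field_simp

theorem corner_null_local {f : ℝ × ℝ → ℝ} {A : ℝ × ℝ → (ℝ × ℝ →L[ℝ] ℝ)} (hA : Continuous A)
    {U : Set (ℝ × ℝ)} (hU : IsOpen U) (hf : ∀ q ∈ U, HasFDerivAt f (A q) q) (e : ℝ × ℝ)
    {q₀ v₀ w₀ : ℝ × ℝ} (hq₀ : q₀ ∈ U) (hv₀ : v₀ ≠ 0) (hw₀ : ¬ ∃ c : ℝ, w₀ = c • v₀) :
    ∃ V ∈ 𝓝 ((q₀, v₀, w₀) : (ℝ × ℝ) × (ℝ × ℝ) × (ℝ × ℝ)),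
      volume {r : ℝ | ∃ c ∈ V, Ray A c.1 c.2.1 1 ∧ Ray A c.1 c.2.2 1 ∧ A c.1 e = r} = 0 := by
  obtain ⟨R, hR, hRU⟩ := Metric.isOpen_iff.1 hU q₀ hq₀
  set m : ℝ := ‖w₀ + v₀‖ + ‖w₀ - v₀‖ + 1 with hm
  have hm0 : 0 < m := by positivity
  obtain ⟨l, hl0, hl1, hl2⟩ : ∃ l : ℝ, 0 < l ∧ l < 1 / 8 ∧ l * (20 * m) < R := by
    refine ⟨min (1 / 16) (R / (40 * m)), lt_min (by norm_num) (by positivity),
      (min_le_left _ _).trans_lt (by norm_num), ?_⟩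
    have h1 : min (1 / 16) (R / (40 * m)) * (20 * m) ≤ R / (40 * m) * (20 * m) :=
      mul_le_mul_of_nonneg_right (min_le_right _ _) (by positivity)
    have h2 : R / (40 * m) * (20 * m) = R / 2 := by field_simp; ring
    linarith
  set T : (ℝ × ℝ) →ₗ[ℝ] (ℝ × ℝ) :=
    (LinearMap.fst ℝ ℝ ℝ).smulRight (l • (w₀ + v₀)) +
      (LinearMap.snd ℝ ℝ ℝ).smulRight (l • (w₀ - v₀)) with hT
  have hTap : ∀ p : ℝ × ℝ, T p = p.1 • l • (w₀ + v₀) + p.2 • l • (w₀ - v₀) := fun p => rfl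
  have hTinj : Function.Injective T := by
    rw [injective_iff_map_eq_zero]
    rintro ⟨x, y⟩ h
    rw [hTap] at h
    have h1 : (l * (x + y)) • w₀ + (l * (x - y)) • v₀ = 0 := by rw [← h]; module
    have hxy : x + y = 0 := by
      by_contra hne
      have hne' : l * (x + y) ≠ 0 := mul_ne_zero hl0.ne' hne
      refine hw₀ ⟨-(l * (x + y))⁻¹ * (l * (x - y)), ?_⟩
      have h2 : (l * (x + y)) • w₀ = -((l * (x - y)) • v₀) := eq_neg_of_add_eq_zero_left h1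
      rw [mul_smul, neg_smul, ← smul_neg, ← h2, smul_smul, inv_mul_cancel₀ hne', one_smul]
    rw [hxy, mul_zero, zero_smul, zero_add, smul_eq_zero] at h1
    have hxy' : x - y = 0 := by
      rcases h1 with h1 | h1
      · exact (mul_eq_zero.1 h1).resolve_left hl0.ne'
      · exact absurd h1 hv₀
    have hx : x = 0 := by linarith
    have hy : y = 0 := by linarith
    simp [hx, hy]
  set L : (ℝ × ℝ) ≃L[ℝ] (ℝ × ℝ) :=
    (LinearEquiv.ofInjectiveEndo T hTinj).toContinuousLinearEquiv with hL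
  have hLap : ∀ p : ℝ × ℝ, L p = T p := fun p => rfl
  have hLv : L.symm v₀ = (1 / (2 * l), -(1 / (2 * l))) := by
    rw [ContinuousLinearEquiv.symm_apply_eq, hLap, hTap]
    simp only [smul_smul]
    have : 1 / (2 * l) * l = 1 / 2 := by field_simp
    rw [neg_mul, this]; module
  have hLw : L.symm w₀ = (1 / (2 * l), 1 / (2 * l)) := by
    rw [ContinuousLinearEquiv.symm_apply_eq, hLap, hTap]
    simp only [smul_smul]
    have : 1 / (2 * l) * l = 1 / 2 := by field_simp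
    rw [this]; module
  have hbig : 4 < 1 / (2 * l) := by rw [lt_div_iff₀ (by linarith)]; linarith
  set V : Set ((ℝ × ℝ) × (ℝ × ℝ) × (ℝ × ℝ)) := {c | ‖L.symm (c.1 - q₀)‖ < 1} ∩
    ({c | (L.symm c.2.1).2 < -4} ∩ ({c | -(L.symm c.2.1).2 < 2 * (L.symm c.2.1).1} ∩
    ({c | (L.symm c.2.1).1 < -2 * (L.symm c.2.1).2} ∩ ({c | 4 < (L.symm c.2.2).2} ∩
    ({c | (L.symm c.2.2).2 < 2 * (L.symm c.2.2).1} ∩
    {c | (L.symm c.2.2).1 < 2 * (L.symm c.2.2).2}))))) with hV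
  have hVo : IsOpen V := by
    refine IsOpen.inter ?_ (IsOpen.inter ?_ (IsOpen.inter ?_ (IsOpen.inter ?_ (IsOpen.inter ?_
      (IsOpen.inter ?_ ?_))))) <;> refine isOpen_lt ?_ ?_ <;> fun_prop
  refine ⟨V, hVo.mem_nhds ?_, ?_⟩
  · simp only [hV, mem_inter_iff, mem_setOf_eq, hLv, hLw, sub_self, map_zero, norm_zero]
    refine ⟨one_pos, ?_, ?_, ?_, ?_, ?_, ?_⟩ <;> linarith
  have hgd : ∀ p : ℝ × ℝ, ‖p‖ ≤ 20 → HasFDerivAt (fun p => f (q₀ + L p))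
      ((A (q₀ + L p)).comp (L : (ℝ × ℝ) →L[ℝ] (ℝ × ℝ))) p := by
    intro p hp
    have hmem : q₀ + L p ∈ U := by
      refine hRU ?_
      rw [mem_ball, dist_eq_norm, add_sub_cancel_left, hLap, hTap]
      have h1 : ‖p.1‖ ≤ 20 := (norm_fst_le p).trans hp
      have h2 : ‖p.2‖ ≤ 20 := (norm_snd_le p).trans hp
      calc _ ≤ ‖p.1 • l • (w₀ + v₀)‖ + ‖p.2 • l • (w₀ - v₀)‖ := norm_add_le _ _
        _ = ‖p.1‖ * (l * ‖w₀ + v₀‖) + ‖p.2‖ * (l * ‖w₀ - v₀‖) := by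
          simp only [norm_smul, Real.norm_of_nonneg hl0.le]
        _ ≤ 20 * (l * ‖w₀ + v₀‖) + 20 * (l * ‖w₀ - v₀‖) := by gcongr
        _ ≤ l * (20 * m) := by rw [hm]; nlinarith
        _ < R := hl2
    exact (hf _ hmem).comp p (L.hasFDerivAt.const_add q₀)
  refine measure_mono_null ?_ (bent_null
    (B := fun p => (A (q₀ + L p)).comp (L : (ℝ × ℝ) →L[ℝ] (ℝ × ℝ))) (by fun_prop) hgd (L.symm e))
  rintro _ ⟨⟨q, v, w⟩, ⟨h0, h1, h2, h3, h4, h5, h6⟩, hrv, hrw, rfl⟩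
  simp only [mem_setOf_eq] at h0 h1 h2 h3 h4 h5 h6 hrv hrw ⊢
  obtain ⟨p, hp⟩ : ∃ p, p = L.symm (q - q₀) := ⟨_, rfl⟩
  obtain ⟨v', hv'⟩ : ∃ p, p = L.symm v := ⟨_, rfl⟩
  obtain ⟨w', hw'⟩ : ∃ p, p = L.symm w := ⟨_, rfl⟩
  rw [← hp] at h0
  rw [← hv'] at h1 h2 h3
  rw [← hw'] at h4 h5 h6
  have eq : q = q₀ + L p := by rw [hp]; simp
  have ev : v = L v' := by rw [hv']; simp
  have ew : w = L w' := by rw [hw']; simp
  obtain ⟨x, y⟩ := p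
  obtain ⟨v1, v2⟩ := v'
  obtain ⟨w1, w2⟩ := w'
  simp only at h1 h2 h3 h4 h5 h6
  have hx : |x| < 1 := (norm_fst_le ((x, y) : ℝ × ℝ)).trans_lt h0
  have hy : |y| < 1 := (norm_snd_le ((x, y) : ℝ × ℝ)).trans_lt h0
  have hx' := abs_lt.1 hx
  have hy' := abs_lt.1 hy
  have hv2 : v2 < 0 := by linarith
  have hw2 : 0 < w2 := by linarith
  have ha : v1 / v2 ∈ Icc (-2 : ℝ) (-1 / 2) :=
    ⟨(le_div_iff_of_neg hv2).2 (by linarith), (div_le_iff_of_neg hv2).2 (by linarith)⟩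
  have hb : w1 / w2 ∈ Icc (1 / 2 : ℝ) 2 :=
    ⟨(le_div_iff₀ hw2).2 (by linarith), (div_le_iff₀ hw2).2 (by linarith)⟩
  refine ⟨fun t => x + v1 / v2 * min (t - y) 0 + w1 / w2 * max (t - y) 0,
    (A q).comp (L : (ℝ × ℝ) →L[ℝ] (ℝ × ℝ)), v1 / v2, w1 / w2,
    ⟨by fun_prop, ?_, ?_, ?_, ?_, ha, hb⟩, by simp⟩
  · intro t ht
    rcases le_total (t - y) 0 with h | h
    · rw [min_eq_left h, max_eq_right h, abs_le]
      constructor <;> nlinarith [ha.1, ha.2, ht.1, ht.2]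
    · rw [min_eq_right h, max_eq_left h, abs_le]
      constructor <;> nlinarith [hb.1, hb.2, ht.1, ht.2]
  · intro t ht
    congr 1
    rcases le_total (t - y) 0 with h | h
    · rw [min_eq_left h, max_eq_right h]
      have e1 : ((x + v1 / v2 * (t - y) + w1 / w2 * 0, t) : ℝ × ℝ) =
          (x, y) + ((t - y) / v2) • (v1, v2) := by
        have : v2 ≠ 0 := hv2.ne
        ext <;> simp <;> field_simp <;> ring
      rw [e1, map_add, map_smul, ← add_assoc, ← eq, ← ev]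
      exact hrv _ ⟨div_nonneg_of_nonpos h hv2.le,
        (div_le_iff_of_neg hv2).2 (by linarith [ht.1])⟩
    · rw [min_eq_right h, max_eq_left h]
      have e1 : ((x + v1 / v2 * 0 + w1 / w2 * (t - y), t) : ℝ × ℝ) =
          (x, y) + ((t - y) / w2) • (w1, w2) := by
        have : w2 ≠ 0 := hw2.ne'
        ext <;> simp <;> field_simp <;> ring
      rw [e1, map_add, map_smul, ← add_assoc, ← eq, ← ew]
      exact hrw _ ⟨div_nonneg h hw2.le, (div_le_iff₀ hw2).2 (by linarith [ht.2])⟩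
  · intro s hs
    have b1 : -3 + s * 2 - y ≤ 0 := by linarith [hs.2]
    have b2 : -3 - y ≤ 0 := by linarith
    rw [min_eq_left b1, max_eq_right b1, min_eq_left b2, max_eq_right b2]
    ring
  · intro s hs
    have b1 : 0 ≤ 1 + s * 2 - y := by linarith [hs.1]
    have b2 : 0 ≤ 1 - y := by linarith
    rw [min_eq_right b1, max_eq_left b1, min_eq_right b2, max_eq_left b2]
    ring

theorem corner_null {f : ℝ × ℝ → ℝ} {A : ℝ × ℝ → (ℝ × ℝ →L[ℝ] ℝ)} (hA : Continuous A)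
    {U : Set (ℝ × ℝ)} (hU : IsOpen U) (hf : ∀ q ∈ U, HasFDerivAt f (A q) q) (e : ℝ × ℝ) :
    volume {r : ℝ | ∃ q ∈ U, ¬ NoCorner A q ∧ A q e = r} = 0 := by
  set Ω : Set ((ℝ × ℝ) × (ℝ × ℝ) × (ℝ × ℝ)) :=
    {c | c.1 ∈ U ∧ c.2.1 ≠ 0 ∧ ¬ ∃ t : ℝ, c.2.2 = t • c.2.1} with hΩ
  have hloc : ∀ c ∈ Ω, ∃ V ∈ 𝓝 c,
      volume {r : ℝ | ∃ c ∈ V, Ray A c.1 c.2.1 1 ∧ Ray A c.1 c.2.2 1 ∧ A c.1 e = r} = 0 :=
    fun c hc => corner_null_local hA hU hf e hc.1 hc.2.1 hc.2.2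
  choose! V hV hnull using hloc
  obtain ⟨t, htΩ, htc, hcov⟩ := TopologicalSpace.countable_cover_nhdsWithin (f := V) (s := Ω)
    fun c hc => mem_nhdsWithin_of_mem_nhds (hV c hc)
  refine measure_mono_null ?_ ((measure_biUnion_null_iff htc).2 fun c hc => hnull c (htΩ hc))
  rintro _ ⟨q, hq, hnc, rfl⟩
  unfold NoCorner at hnc
  push Not at hnc
  obtain ⟨v, w, r, r', hv, hr, hr', h1, h2, hne⟩ := hnc
  have hmem : (q, r • v, r' • w) ∈ Ω := by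
    refine ⟨hq, smul_ne_zero hr.ne' hv, ?_⟩
    rintro ⟨c, hc⟩
    refine hne (r'⁻¹ * (c * r)) ?_
    simp only at hc
    rw [mul_smul, mul_smul, ← hc, smul_smul, inv_mul_cancel₀ hr'.ne', one_smul]
  obtain ⟨c, hct, hcV⟩ := mem_iUnion₂.1 (hcov hmem)
  refine mem_iUnion₂.2 ⟨c, hct, _, hcV, ?_, ?_, rfl⟩
  · simpa [div_self hr.ne'] using h1.smul hr
  · simpa [div_self hr'.ne'] using h2.smul hr'

theorem corner_disconnected {f : ℝ × ℝ → ℝ} {A : ℝ × ℝ → (ℝ × ℝ →L[ℝ] ℝ)} (hA : Continuous A)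
    {U : Set (ℝ × ℝ)} (hU : IsOpen U) (hf : ∀ q ∈ U, HasFDerivAt f (A q) q)
    (β : ℝ × ℝ →L[ℝ] ℝ) :
    IsTotallyDisconnected (insert β {α | ∃ q ∈ U, ¬ NoCorner A q ∧ A q = α}) := by
  intro S hS hc α₁ h₁ α₂ h₂
  refine ContinuousLinearMap.ext fun e => ?_
  have hcont : Continuous fun α : ℝ × ℝ →L[ℝ] ℝ => α e := by fun_prop
  have hpc := hc.image _ hcont.continuousOn
  have hnull : volume ((fun α : ℝ × ℝ →L[ℝ] ℝ => α e) '' S) = 0 := by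
    refine measure_mono_null ?_ (measure_union_null (measure_singleton (β e))
      (corner_null hA hU hf e))
    rintro _ ⟨α, hα, rfl⟩
    rcases hS hα with rfl | ⟨q, hq, hnc, rfl⟩
    · exact Or.inl rfl
    · exact Or.inr ⟨q, hq, hnc, rfl⟩
  have key : ∀ a₁ ∈ S, ∀ a₂ ∈ S, a₂ e ≤ a₁ e := by
    intro a₁ h₁ a₂ h₂
    have := measure_mono_null (hpc.Icc_subset ⟨a₁, h₁, rfl⟩ ⟨a₂, h₂, rfl⟩) hnull
    simpa [Real.volume_Icc] using this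
  exact le_antisymm (key _ h₂ _ h₁) (key _ h₁ _ h₂)

theorem good_of_semi_gradient {f : ℝ × ℝ → ℝ} {A : ℝ × ℝ → (ℝ × ℝ →L[ℝ] ℝ)} (hA : Continuous A)
    {U : Set (ℝ × ℝ)} (hU : IsOpen U) (hf : ∀ q ∈ U, HasFDerivAt f (A q) q)
    (hst : ∀ q ∈ U, ∃ v : ℝ × ℝ, v ≠ 0 ∧ ∃ r : ℝ, 0 < r ∧ Ray A q v r) {p : ℝ × ℝ} (hp : p ∈ U) :
    Good A p :=
  good_of_semi hA (corner_disconnected hA hU hf) hU hst
    (fun q hq hg => by_contra fun h => hg ⟨q, hq, h, rfl⟩) hp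

end Pool.Agent.Lib.MP_88a170_gt
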