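import Mathlib
import Pool.Agent.Lib.MP_88a170_gt.Corner

open Set Topology Metric
open scoped Manifold

namespace Pool.Agent.Lib.MP_88a170_gt

theorem ray_shorten {U : Set (ℝ × ℝ)} (hU : IsOpen U) {q : ℝ × ℝ} (hq : q ∈ U) (v : ℝ × ℝ)
    {r : ℝ} (hr : 0 < r) : ∃ ε : ℝ, 0 < ε ∧ ε ≤ r ∧ ∀ s ∈ Icc (-ε) ε, q + s • v ∈ U := by
  have hc : Continuous fun s : ℝ => q + s • v := by fun_prop
  obtain ⟨δ, hδ, hsub⟩ := Metric.isOpen_iff.1 (hU.preimage hc) 0 (by simpa using hq)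
  refine ⟨min r (δ / 2), lt_min hr (by linarith), min_le_left _ _, fun s hs => hsub ?_⟩
  rw [mem_ball, Real.dist_eq, sub_zero, abs_lt]
  constructor <;> linarith [hs.1, hs.2, min_le_right r (δ / 2)]

theorem plane {f : ℝ × ℝ → ℝ} {A : ℝ × ℝ → (ℝ × ℝ →L[ℝ] ℝ)} {U : Set (ℝ × ℝ)} (hU : IsOpen U)
    (hA : ContinuousOn A U) (hf : ∀ q ∈ U, HasFDerivAt f (A q) q)
    (hst : ∀ q ∈ U, ∃ v : ℝ × ℝ, v ≠ 0 ∧ ∃ r : ℝ, 0 < r ∧ Ray A q v r) {p : ℝ × ℝ} (hp : p ∈ U) :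
    ∃ v : ℝ × ℝ, v ≠ 0 ∧ ∃ ε : ℝ, 0 < ε ∧ ∀ s ∈ Icc (-ε) ε, p + s • v ∈ U ∧ A (p + s • v) = A p := by
  obtain ⟨R, hR, hRU⟩ := nhds_basis_closedBall.mem_iff.1 (hU.mem_nhds hp)
  set c : ℝ × ℝ → ℝ × ℝ := fun q =>
    (max (p.1 - R) (min q.1 (p.1 + R)), max (p.2 - R) (min q.2 (p.2 + R))) with hc
  have hcc : Continuous c := by fun_prop
  have hcm : ∀ q, c q ∈ closedBall p R := by
    intro q
    rw [mem_closedBall, Prod.dist_eq, max_le_iff, Real.dist_eq, Real.dist_eq, abs_le, abs_le]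
    simp only [hc]
    refine ⟨⟨?_, ?_⟩, ?_, ?_⟩
    · linarith [le_max_left (p.1 - R) (min q.1 (p.1 + R))]
    · linarith [max_le (show p.1 - R ≤ p.1 + R by linarith) (min_le_right q.1 (p.1 + R))]
    · linarith [le_max_left (p.2 - R) (min q.2 (p.2 + R))]
    · linarith [max_le (show p.2 - R ≤ p.2 + R by linarith) (min_le_right q.2 (p.2 + R))]
  have hce : ∀ q ∈ ball p R, c q = q := by
    intro q hq
    rw [mem_ball, Prod.dist_eq, max_lt_iff, Real.dist_eq, Real.dist_eq, abs_lt, abs_lt] at hq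
    simp only [hc]
    rw [min_eq_left (by linarith [hq.1.2]), max_eq_right (by linarith [hq.1.1]),
      min_eq_left (by linarith [hq.2.2]), max_eq_right (by linarith [hq.2.1])]
  have hA' : Continuous (A ∘ c) := hA.comp_continuous hcc fun q => hRU (hcm q)
  have hsub : ball p R ⊆ U := ball_subset_closedBall.trans hRU
  obtain ⟨v, hv, ε, hε, h1, h2⟩ := good_of_semi_gradient (f := f) hA' (U := ball p R) isOpen_ball
    (fun q hq => by rw [Function.comp_apply, hce q hq]; exact hf q (hsub hq))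
    (fun q hq => by
      obtain ⟨v, hv, r, hr, hray⟩ := hst q (hsub hq)
      obtain ⟨ε, hε, hεr, hin⟩ := ray_shorten isOpen_ball hq v hr
      refine ⟨v, hv, ε, hε, fun s hs => ?_⟩
      rw [Function.comp_apply, Function.comp_apply, hce q hq,
        hce _ (hin s ⟨by linarith [hs.1], hs.2⟩)]
      exact hray s ⟨hs.1, hs.2.trans hεr⟩)
    (mem_ball_self hR)
  obtain ⟨δ, hδ, hδε, hin⟩ := ray_shorten isOpen_ball (mem_ball_self (x := p) hR) v hε
  refine ⟨v, hv, δ, hδ, fun s hs => ⟨hsub (hin s hs), ?_⟩⟩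
  rw [← hce _ (hin s hs), ← hce p (mem_ball_self hR), hce p (mem_ball_self hR)]
  conv_rhs => rw [← hce p (mem_ball_self hR)]
  rcases le_total 0 s with h | h
  · exact h1 s ⟨h, hs.2.trans hδε⟩
  · have := h2 (-s) ⟨by linarith, by linarith [hs.1]⟩
    rwa [smul_neg, neg_smul, neg_neg] at this

theorem graph_of_chart {ψ : EuclideanSpace ℝ (Fin 2) → EuclideanSpace ℝ (Fin 3)}
    {O : Set (EuclideanSpace ℝ (Fin 2))} (hO : IsOpen O) (hψ : ContDiffOn ℝ 1 ψ O)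
    {x₀ : EuclideanSpace ℝ (Fin 2)} (hx₀ : x₀ ∈ O) (hinj : Function.Injective (fderiv ℝ ψ x₀)) :
    ∃ (T : EuclideanSpace ℝ (Fin 3) ≃L[ℝ] (ℝ × ℝ) × ℝ) (U : Set (ℝ × ℝ))
      (W : Set (EuclideanSpace ℝ (Fin 2))) (χ : ℝ × ℝ → EuclideanSpace ℝ (Fin 2))
      (f : ℝ × ℝ → ℝ) (A : ℝ × ℝ → (ℝ × ℝ →L[ℝ] ℝ)),
      IsOpen U ∧ IsOpen W ∧ x₀ ∈ W ∧ W ⊆ O ∧ ContinuousOn χ U ∧ (∀ q ∈ U, χ q ∈ W) ∧
      (∀ x ∈ W, (T (ψ x)).1 ∈ U ∧ χ (T (ψ x)).1 = x) ∧ (∀ q ∈ U, T (ψ (χ q)) = (q, f q)) ∧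
      (∀ q ∈ U, HasFDerivAt f (A q) q) ∧ ContinuousOn A U ∧
      ∀ q ∈ U, ∀ y, y ∈ (fderiv ℝ ψ (χ q)).range ↔ (T y).2 = A q (T y).1 := by
  set D := fderiv ℝ ψ x₀ with hD
  obtain ⟨J⟩ : Nonempty ((ℝ × ℝ) ≃L[ℝ] EuclideanSpace ℝ (Fin 2)) :=
    FiniteDimensional.nonempty_continuousLinearEquiv_of_finrank_eq (by simp)
  obtain ⟨n, hn⟩ : ∃ n, n ∉ D.range := by
    by_contra hcon
    push Not at hcon
    have h1 : D.range = ⊤ := eq_top_iff.2 fun y _ => hcon y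
    have h2 := LinearMap.finrank_range_le D.toLinearMap
    rw [h1] at h2
    simp at h2
  set S : ((ℝ × ℝ) × ℝ) →ₗ[ℝ] EuclideanSpace ℝ (Fin 3) :=
    LinearMap.coprod (D.toLinearMap ∘ₗ J.toLinearEquiv.toLinearMap)
      (LinearMap.toSpanSingleton ℝ _ n) with hS
  have hSap : ∀ q z, S (q, z) = D (J q) + z • n := fun q z => rfl
  have hSinj : Function.Injective S := by
    rw [injective_iff_map_eq_zero]
    rintro ⟨q, z⟩ h
    rw [hSap] at h
    have hz : z = 0 := by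
      by_contra hz
      refine hn ⟨-z⁻¹ • J q, ?_⟩
      have : D (J q) = -(z • n) := eq_neg_of_add_eq_zero_left h
      simp [this, smul_smul, inv_mul_cancel₀ hz]
    rw [hz, zero_smul, add_zero] at h
    have h1 : J q = 0 := hinj (h.trans (map_zero D).symm)
    have h2 : q = 0 := by simpa using h1
    simp [hz, h2]
  set T : EuclideanSpace ℝ (Fin 3) ≃L[ℝ] (ℝ × ℝ) × ℝ :=
    (S.linearEquivOfInjective hSinj (by simp)).symm.toContinuousLinearEquiv with hT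
  have hTS : ∀ z, T (S z) = z := fun z =>
    (S.linearEquivOfInjective hSinj (by simp)).symm_apply_apply z
  set G : EuclideanSpace ℝ (Fin 2) → ℝ × ℝ := fun x => (T (ψ x)).1 with hG
  have hψ0 : ContDiffAt ℝ 1 ψ x₀ := hψ.contDiffAt (hO.mem_nhds hx₀)
  have hGc : ContDiffAt ℝ 1 G x₀ := (T.contDiff.contDiffAt.comp x₀ hψ0).fst
  have hGd : HasFDerivAt G (J.symm : EuclideanSpace ℝ (Fin 2) →L[ℝ] ℝ × ℝ) x₀ := by
    have h1 := (T.hasFDerivAt.comp x₀ (hψ0.differentiableAt one_ne_zero).hasFDerivAt).fst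
    refine h1.congr_fderiv (ContinuousLinearMap.ext fun x => ?_)
    have := hTS (J.symm x, 0)
    rw [hSap, zero_smul, add_zero, J.apply_symm_apply] at this
    simp [← hD, this]
  set h := hGc.toOpenPartialHomeomorph G hGd one_ne_zero with hh
  have hhG : (h : EuclideanSpace ℝ (Fin 2) → ℝ × ℝ) = G := rfl
  have hx₀h : x₀ ∈ h.source := hGc.mem_toOpenPartialHomeomorph_source hGd one_ne_zero
  have hinv : ContDiffAt ℝ 1 h.symm (G x₀) := hGc.to_localInverse hGd one_ne_zero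
  have hsx : h.symm (G x₀) = x₀ := h.left_inv hx₀h
  have hev : ∀ᶠ q in 𝓝 (G x₀), ContDiffAt ℝ 1 h.symm q ∧ q ∈ h.target ∧ h.symm q ∈ O := by
    refine (hinv.eventually (by simp)).and
      (Filter.Eventually.and (h.open_target.mem_nhds (h.map_source hx₀h)) ?_)
    exact hinv.continuousAt.preimage_mem_nhds (by rw [hsx]; exact hO.mem_nhds hx₀)
  obtain ⟨U, hUsub, hU, hxU⟩ := _root_.mem_nhds_iff.1 hev
  have hWo : IsOpen (h.source ∩ h ⁻¹' U) := h.isOpen_inter_preimage hU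
  have hcd : ∀ q ∈ U, ContDiffAt ℝ 1 (fun q => (T (ψ (h.symm q))).2) q := fun q hq =>
    (T.contDiff.contDiffAt.comp q
      ((hψ.contDiffAt (hO.mem_nhds (hUsub hq).2.2)).comp q (hUsub hq).1)).snd
  have hgraph : ∀ q ∈ U, T (ψ (h.symm q)) = (q, (T (ψ (h.symm q))).2) := fun q hq =>
    Prod.ext (h.right_inv (hUsub hq).2.1) rfl
  refine ⟨T, U, h.source ∩ h ⁻¹' U, h.symm, fun q => (T (ψ (h.symm q))).2,
    fderiv ℝ fun q => (T (ψ (h.symm q))).2, hU, hWo, ⟨hx₀h, hxU⟩, ?_, ?_, ?_, ?_, hgraph, ?_, ?_,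
    ?_⟩
  · intro x hx
    have := (hUsub hx.2).2.2
    rwa [h.left_inv hx.1] at this
  · exact fun q hq => (hUsub hq).1.continuousAt.continuousWithinAt
  · intro q hq
    refine ⟨h.map_target (hUsub hq).2.1, ?_⟩
    rw [mem_preimage, h.right_inv (hUsub hq).2.1]
    exact hq
  · exact fun x hx => ⟨hx.2, h.left_inv hx.1⟩
  · exact fun q hq => ((hcd q hq).differentiableAt one_ne_zero).hasFDerivAt
  · exact ContDiffOn.continuousOn_fderiv_of_isOpen (n := 1)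
      (fun q hq => (hcd q hq).contDiffWithinAt) hU le_rfl
  · intro q hq y
    set A := fderiv ℝ (fun q => (T (ψ (h.symm q))).2) q with hA
    set Dq := fderiv ℝ ψ (h.symm q) with hDq
    set C := fderiv ℝ h.symm q with hC
    have d1 : HasFDerivAt (fun q => T (ψ (h.symm q)))
        ((T : EuclideanSpace ℝ (Fin 3) →L[ℝ] (ℝ × ℝ) × ℝ).comp (Dq.comp C)) q :=
      T.hasFDerivAt.comp q
        ((((hψ.contDiffAt (hO.mem_nhds (hUsub hq).2.2)).differentiableAt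
          one_ne_zero).hasFDerivAt).comp q ((hUsub hq).1.differentiableAt one_ne_zero).hasFDerivAt)
    have d2 : HasFDerivAt (fun q => T (ψ (h.symm q)))
        ((ContinuousLinearMap.id ℝ (ℝ × ℝ)).prod A) q := by
      refine ((hasFDerivAt_id q).prodMk
        ((hcd q hq).differentiableAt one_ne_zero).hasFDerivAt).congr_of_eventuallyEq ?_
      filter_upwards [hU.mem_nhds hq] with q' hq' using hgraph q' hq'
    have key : ∀ u, T (Dq (C u)) = (u, A u) := fun u => congr($(d1.unique d2) u)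
    have hCinj : Function.Injective C.toLinearMap := by
      intro u u' huu
      have h1 : C u = C u' := huu
      have h2 := key u
      rw [h1, key u'] at h2
      exact (congrArg Prod.fst h2).symm
    have hCsurj : Function.Surjective C.toLinearMap :=
      (LinearMap.injective_iff_surjective_of_finrank_eq_finrank (by simp)).1 hCinj
    constructor
    · rintro ⟨x, rfl⟩
      obtain ⟨u, rfl⟩ := hCsurj x
      have := key u
      simp only [ContinuousLinearMap.coe_coe]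
      rw [this]
    · intro hy
      refine ⟨C (T y).1, T.injective ?_⟩
      simp only [ContinuousLinearMap.coe_coe]
      rw [key, ← hy]

theorem chart_param {M : Type*} [TopologicalSpace M] [ChartedSpace (EuclideanSpace ℝ (Fin 2)) M]
    [IsManifold (𝓡 2) 1 M] {φ : M → EuclideanSpace ℝ (Fin 3)} (hφ : ContMDiff (𝓡 2) (𝓡 3) 1 φ)
    (p : M) :
    ContDiffOn ℝ 1 (φ ∘ (extChartAt (𝓡 2) p).symm) (extChartAt (𝓡 2) p).target ∧
    ∀ m ∈ (extChartAt (𝓡 2) p).source,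
      (mvfderiv (𝓡 2) φ m).range =
        (fderiv ℝ (φ ∘ (extChartAt (𝓡 2) p).symm) (extChartAt (𝓡 2) p m)).range ∧
      (Function.Injective (mvfderiv (𝓡 2) φ m) → Function.Injective
        (fderiv ℝ (φ ∘ (extChartAt (𝓡 2) p).symm) (extChartAt (𝓡 2) p m))) := by
  have hψ : ContDiffOn ℝ 1 (φ ∘ (extChartAt (𝓡 2) p).symm) (extChartAt (𝓡 2) p).target :=
    contMDiffOn_iff_contDiffOn.1 (hφ.comp_contMDiffOn (contMDiffOn_extChartAt_symm p))
  refine ⟨hψ, fun m hm => ?_⟩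
  set e := extChartAt (𝓡 2) p with he
  have hev : φ =ᶠ[𝓝 m] (φ ∘ e.symm) ∘ e := by
    filter_upwards [(isOpen_extChartAt_source p).mem_nhds hm] with m' hm'
    simp only [Function.comp_apply]
    rw [e.left_inv hm']
  have hd : DifferentiableAt ℝ (φ ∘ e.symm) (e m) :=
    (hψ.contDiffAt ((isOpen_extChartAt_target p).mem_nhds (e.map_source hm))).differentiableAt
      one_ne_zero
  have hme : MDifferentiableAt (𝓡 2) (𝓡 2) e m :=
    mdifferentiableAt_extChartAt (by rwa [he, extChartAt_source] at hm)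
  obtain ⟨K, hK⟩ := isInvertible_mfderiv_extChartAt (I := 𝓡 2) hm
  have key : ∀ ξ, mvfderiv (𝓡 2) φ m ξ = fderiv ℝ (φ ∘ e.symm) (e m) (K ξ) := by
    intro ξ
    have h1 : mfderiv (𝓡 2) (𝓡 3) φ m = mfderiv (𝓡 2) (𝓡 3) ((φ ∘ e.symm) ∘ e) m :=
      hev.mfderiv_eq
    have h2 := mfderiv_comp_apply m hd.mdifferentiableAt hme ξ
    rw [mfderiv_eq_fderiv] at h2
    have h3 : K ξ = mfderiv (𝓡 2) (𝓡 2) e m ξ := congr($hK ξ)
    rw [h3]
    exact (congr($h1 ξ)).trans h2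
  constructor
  · ext y
    constructor
    · rintro ⟨ξ, rfl⟩
      exact ⟨K ξ, (key ξ).symm⟩
    · rintro ⟨x, rfl⟩
      obtain ⟨ξ, rfl⟩ := K.surjective x
      exact ⟨ξ, key ξ⟩
  · intro hinj x x' hxx
    obtain ⟨ξ, rfl⟩ := K.surjective x
    obtain ⟨ξ', rfl⟩ := K.surjective x'
    rw [hinj ((key ξ).trans (hxx.trans (key ξ').symm))]

theorem local_graph {M : Type*} [TopologicalSpace M] [ChartedSpace (EuclideanSpace ℝ (Fin 2)) M]
    [IsManifold (𝓡 2) 1 M] {φ : M → EuclideanSpace ℝ (Fin 3)} (hφ : ContMDiff (𝓡 2) (𝓡 3) 1 φ)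
    (p : M) (hinj : Function.Injective (mvfderiv (𝓡 2) φ p)) :
    ∃ (T : EuclideanSpace ℝ (Fin 3) ≃L[ℝ] (ℝ × ℝ) × ℝ) (U : Set (ℝ × ℝ)) (V : Set M)
      (σ : ℝ × ℝ → M) (f : ℝ × ℝ → ℝ) (A : ℝ × ℝ → (ℝ × ℝ →L[ℝ] ℝ)),
      IsOpen U ∧ IsOpen V ∧ p ∈ V ∧ ContinuousOn σ U ∧
      (∀ m ∈ V, (T (φ m)).1 ∈ U ∧ σ (T (φ m)).1 = m) ∧ (∀ q ∈ U, σ q ∈ V) ∧
      (∀ q ∈ U, T (φ (σ q)) = (q, f q)) ∧
      (∀ q ∈ U, HasFDerivAt f (A q) q) ∧ ContinuousOn A U ∧
      ∀ q ∈ U, ∀ y, y ∈ (mvfderiv (𝓡 2) φ (σ q)).range ↔ (T y).2 = A q (T y).1 := by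
  obtain ⟨hψ, hr⟩ := chart_param hφ p
  set e := extChartAt (𝓡 2) p with he
  have hp : p ∈ e.source := mem_extChartAt_source p
  obtain ⟨T, U, W, χ, f, A, hU, hW, hxW, hWO, hχ, hχW, hinv, hgr, hf, hA, hrange⟩ :=
    graph_of_chart (isOpen_extChartAt_target p) hψ (e.map_source hp) ((hr p hp).2 hinj)
  refine ⟨T, U, e.source ∩ e ⁻¹' W, e.symm ∘ χ, f, A, hU,
    isOpen_extChartAt_preimage' p hW, ⟨hp, hxW⟩,
    (continuousOn_extChartAt_symm p).comp hχ fun q hq => hWO (hχW q hq), ?_, ?_, hgr, hf, hA, ?_⟩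
  · intro m hm
    have := hinv (e m) hm.2
    simp only [Function.comp_apply, e.left_inv hm.1] at this ⊢
    refine ⟨this.1, ?_⟩
    rw [this.2, e.left_inv hm.1]
  · intro q hq
    have h1 := hWO (hχW q hq)
    refine ⟨e.map_target h1, ?_⟩
    rw [mem_preimage, Function.comp_apply, e.right_inv h1]
    exact hχW q hq
  · intro q hq y
    have h1 := hWO (hχW q hq)
    rw [Function.comp_apply, (hr _ (e.map_target h1)).1, e.right_inv h1]
    exact hrange q hq y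

end Pool.Agent.Lib.MP_88a170_gt
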