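import Mathlib
import Pool.Agent.Lib.MP_88a170_gt.Graph

/-! Semi-torses in any codimension, with a countable exceptional set: the planar part. -/

open Set Topology Metric MeasureTheory

namespace Pool.Agent.Lib.MP_88a170_gt.Codim

section top
variable {F : Type*} [TopologicalSpace F] [T2Space F] {A : ℝ × ℝ → F}

theorem good_of_generic (hA : Continuous A) {N : Set F}
    (hN : ∀ β, IsTotallyDisconnected (insert β N)) {U : Set (ℝ × ℝ)} (hU : IsOpen U)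
    {X : Set (ℝ × ℝ)} (hX : X.Countable) (hXN : ∀ q ∈ X, A q ∈ N)
    (hst : ∀ q ∈ U, q ∉ X → ∃ v : ℝ × ℝ, v ≠ 0 ∧ ∃ r : ℝ, 0 < r ∧ Ray A q v r)
    (hnc : ∀ q ∈ U, A q ∉ N → NoCorner A q) {p : ℝ × ℝ} (hp : p ∈ U) (hg : A p ∉ N) :
    Good A p := by
  by_contra hpb
  obtain ⟨R, hR, hRU⟩ := nhds_basis_closedBall.mem_iff.1 (hU.mem_nhds hp)
  set S : Set (ℝ × ℝ) := {q | q ∈ ball p R ∧ A q ∉ N ∧ ¬ Good A q} with hS
  have hZU : closure S ⊆ U := by
    refine (closure_minimal (fun q hq => ball_subset_closedBall hq.1) isClosed_closedBall).trans hRU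
  have : CompleteSpace (closure S) := isClosed_closure.completeSpace_coe
  have : Nonempty (closure S) := ⟨⟨p, subset_closure ⟨mem_ball_self hR, hg, hpb⟩⟩⟩
  have := hX.to_subtype
  set E : ℕ × Fin 4 → Set (ℝ × ℝ) := fun i =>
    {q | ∃ a ∈ Icc (-1 : ℝ) 1, Ray A q (Lf i.2 (a, 1)) (1 / ((i.1 : ℝ) + 1))} with hE
  have hEc : ∀ i, IsClosed (E i) := by
    intro i
    refine isClosed_exists_compact isCompact_Icc ?_
    have hLc : Continuous (Lf i.2) := (Lf i.2).continuous_of_finiteDimensional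
    exact isClosed_ray hA (q := fun z : (ℝ × ℝ) × ℝ => z.1)
      (d := fun z : (ℝ × ℝ) × ℝ => Lf i.2 (z.2, 1)) continuous_fst (by fun_prop) _
  set E' : (ℕ × Fin 4) ⊕ X → Set (ℝ × ℝ) := Sum.elim E fun x => {x.1} with hE'
  have hE'c : ∀ i, IsClosed (E' i) := by
    rintro (i | x)
    exacts [hEc i, isClosed_singleton]
  obtain ⟨i, ⟨q, hq⟩⟩ := nonempty_interior_of_iUnion_of_closed
    (f := fun i => (Subtype.val : closure S → ℝ × ℝ) ⁻¹' E' i)
    (fun i => (hE'c i).preimage continuous_subtype_val) (by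
      refine eq_univ_of_forall fun q => ?_
      by_cases hqX : q.1 ∈ X
      · exact mem_iUnion.2 ⟨Sum.inr ⟨q.1, hqX⟩, rfl⟩
      obtain ⟨v, hv, r, hr, hray⟩ := hst q (hZU q.2) hqX
      obtain ⟨j, a, ha, m, hm, hj⟩ := exists_Lf hv
      obtain ⟨n, hn⟩ := exists_nat_one_div_lt (div_pos hr hm)
      refine mem_iUnion.2 ⟨Sum.inl (n, j), a, ha, ?_⟩
      simp only
      rw [hj]
      exact (hray.smul hm).mono hn.le)
  obtain ⟨O', hO'sub, hO'open, hqO'⟩ := mem_interior.1 hq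
  obtain ⟨O, hO, rfl⟩ := isOpen_induced_iff.1 hO'open
  obtain ⟨z, hzO, hzS⟩ := mem_closure_iff.1 q.2 O hO hqO'
  rcases i with i | x
  swap
  · have hz : z = x.1 := hO'sub (a := ⟨z, subset_closure hzS⟩) hzO
    exact hzS.2.1 (hz ▸ hXN _ x.2)
  obtain ⟨ρ, hρ, hρsub⟩ := Metric.isOpen_iff.1 (hO.inter isOpen_ball) z ⟨hzO, hzS.1⟩
  have hn : (0 : ℝ) < 1 / ((i.1 : ℝ) + 1) := by positivity
  obtain ⟨r, hr, hr1, hr2⟩ : ∃ r : ℝ, 0 < r ∧ 2 * r ≤ ρ ∧ r ≤ 1 / ((i.1 : ℝ) + 1) :=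
    ⟨min (ρ / 2) (1 / ((i.1 : ℝ) + 1)), lt_min (by linarith) hn,
      by linarith [min_le_left (ρ / 2) (1 / ((i.1 : ℝ) + 1))], min_le_right _ _⟩
  have hb : ball z (2 * r) ⊆ O ∩ ball p R := (ball_subset_ball hr1).trans hρsub
  refine hzS.2.2 (good_of_cone hA hN (Lf i.2) (norm_Lf i.2) hr
    (fun q hq => hnc q (hRU (ball_subset_closedBall (hb hq).2))) hzS.2.1 ?_)
  intro q' hq' hg' hb'
  have hmem : q' ∈ closure S := subset_closure ⟨(hb hq').2, hg', hb'⟩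
  obtain ⟨a, ha, hray⟩ := hO'sub (a := ⟨q', hmem⟩) (hb hq').1
  exact ⟨a, ha, hray.mono hr2⟩

theorem good_of_all (hA : Continuous A) {N : Set F}
    (hN : ∀ β, IsTotallyDisconnected (insert β N)) {U : Set (ℝ × ℝ)} (hU : IsOpen U)
    (hgen : ∀ q ∈ U, A q ∉ N → Good A q)
    (hnc : ∀ q ∈ U, A q ∉ N → NoCorner A q) {p : ℝ × ℝ} (hp : p ∈ U) : Good A p := by
  obtain ⟨R, hR, hRU⟩ := Metric.isOpen_iff.1 hU p hp
  have hext : ∀ q ∈ ball p (R / 2), A q ∉ N → ∀ d : ℝ × ℝ, ‖d‖ = 1 →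
      (∃ ε : ℝ, 0 < ε ∧ Ray A q d ε) → Ray A q d (R / 2) := by
    intro q hq hg d hd hinit
    have hd0 : d ≠ 0 := by
      rintro rfl
      simp at hd
    refine extend hA fun s hs hray => ?_
    rcases eq_or_lt_of_le hs.1 with h0 | h0
    · rw [← h0]; simpa using hinit
    have he : q + s • d ∈ ball p R := by
      rw [mem_ball, dist_eq_norm] at hq ⊢
      have : q + s • d - p = (q - p) + s • d := by abel
      rw [this]
      have h1 : ‖s • d‖ = s := by rw [norm_smul, hd, mul_one, Real.norm_of_nonneg hs.1]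
      linarith [norm_add_le (q - p) (s • d), hs.2]
    have hge : A (q + s • d) ∉ N := by rwa [hray s ⟨hs.1, le_rfl⟩]
    exact good_ext (hnc _ (hRU he) hge) (hgen _ (hRU he) hge) hd0 h0 (hray.back hs.1)
  by_contra hpb
  have hpT : p ∈ {q : ℝ × ℝ | ∃ d ∈ sphere (0 : ℝ × ℝ) 1,
      Ray A q d (R / 2) ∧ Ray A q (-d) (R / 2)}ᶜ := by
    rintro ⟨d, hd, h1, h2⟩
    refine hpb ⟨d, ?_, R / 2, by linarith, h1, h2⟩
    rintro rfl
    simp at hd
  obtain ⟨ρ, hρ, hball⟩ := Metric.isOpen_iff.1 (isClosed_chord hA (R / 2)).isOpen_compl p hpT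
  obtain ⟨l, hl0, hlρ, hlr⟩ : ∃ l : ℝ, 0 < l ∧ l ≤ ρ ∧ l ≤ R / 2 :=
    ⟨min ρ (R / 2), lt_min hρ (by linarith), min_le_left _ _, min_le_right _ _⟩
  have hsubN : A '' ball p l ⊆ insert (A p) N := by
    rintro _ ⟨q, hq, rfl⟩
    refine Or.inr ?_
    by_contra hg
    have hq1 : q ∈ ball p (R / 2) := ball_subset_ball hlr hq
    obtain ⟨d, hd, ε, hε, h1, h2⟩ :=
      (hgen _ (hRU (ball_subset_ball (by linarith) hq1)) hg).unit
    exact hball (ball_subset_ball hlρ hq) ⟨d, by simpa using hd, hext q hq1 hg d hd ⟨ε, hε, h1⟩,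
      hext q hq1 hg (-d) (by rwa [norm_neg]) ⟨ε, hε, h2⟩⟩
  have hss := hN _ _ hsubN ((convex_ball p l).isPreconnected.image _ hA.continuousOn)
  have hconst : ∀ d : ℝ × ℝ, ‖d‖ = 1 → Ray A p d (l / 2) := by
    intro d hd s hs
    refine hss ⟨_, ?_, rfl⟩ ⟨p, mem_ball_self hl0, rfl⟩
    rw [mem_ball, dist_eq_norm, add_sub_cancel_left, norm_smul, hd, mul_one,
      Real.norm_of_nonneg hs.1]
    linarith [hs.2]
  have h01 : ‖((0, 1) : ℝ × ℝ)‖ = 1 := by simp [Prod.norm_def]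
  exact hpb ⟨(0, 1), by simp, l / 2, by linarith, hconst _ h01, hconst _ (by rwa [norm_neg])⟩

end top

variable {F : Type*} [NormedAddCommGroup F] [NormedSpace ℝ F]

theorem corner_disconnected {f : ℝ × ℝ → F} {A : ℝ × ℝ → (ℝ × ℝ →L[ℝ] F)} (hA : Continuous A)
    {U : Set (ℝ × ℝ)} (hU : IsOpen U) (hf : ∀ q ∈ U, HasFDerivAt f (A q) q)
    {X : Set (ℝ × ℝ)} (hX : X.Countable) (β : ℝ × ℝ →L[ℝ] F) :
    IsTotallyDisconnected
      (insert β ({α | ∃ q ∈ U, ¬ NoCorner A q ∧ A q = α} ∪ A '' X)) := by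
  intro S hS hc α₁ h₁ α₂ h₂
  refine ContinuousLinearMap.ext fun e => ?_
  refine (SeparatingDual.eq_iff_forall_dual_eq (R := ℝ)).2 fun l => ?_
  have hcont : Continuous fun α : ℝ × ℝ →L[ℝ] F => l (α e) := by fun_prop
  have hpc := hc.image _ hcont.continuousOn
  have hAl : Continuous fun q => l.comp (A q) := continuous_const.clm_comp hA
  have hnull : volume ((fun α : ℝ × ℝ →L[ℝ] F => l (α e)) '' S) = 0 := by
    refine measure_mono_null ?_ (measure_union_null (measure_singleton (l (β e)))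
      (measure_union_null (corner_null (f := l ∘ f) hAl hU
        (fun q hq => l.hasFDerivAt.comp q (hf q hq)) e)
        ((hX.image fun q => l (A q e)).measure_zero volume)))
    rintro _ ⟨α, hα, rfl⟩
    rcases hS hα with rfl | ⟨q, hq, hnc, rfl⟩ | ⟨q, hq, rfl⟩
    · exact Or.inl rfl
    · refine Or.inr (Or.inl ⟨q, hq, fun h => hnc fun v w r r' hv hr hr' h1 h2 => ?_, rfl⟩)
      exact h v w r r' hv hr hr' (fun s hs => by simp only [h1 s hs])
        (fun s hs => by simp only [h2 s hs])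
    · exact Or.inr (Or.inr ⟨q, hq, rfl⟩)
  have key : ∀ a₁ ∈ S, ∀ a₂ ∈ S, l (a₂ e) ≤ l (a₁ e) := by
    intro a₁ h₁ a₂ h₂
    have := measure_mono_null (hpc.Icc_subset ⟨a₁, h₁, rfl⟩ ⟨a₂, h₂, rfl⟩) hnull
    simpa [Real.volume_Icc] using this
  exact le_antisymm (key _ h₂ _ h₁) (key _ h₁ _ h₂)

theorem good_of_semi_deriv {f : ℝ × ℝ → F} {A : ℝ × ℝ → (ℝ × ℝ →L[ℝ] F)} (hA : Continuous A)
    {U : Set (ℝ × ℝ)} (hU : IsOpen U) (hf : ∀ q ∈ U, HasFDerivAt f (A q) q)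
    {X : Set (ℝ × ℝ)} (hX : X.Countable)
    (hst : ∀ q ∈ U, q ∉ X → ∃ v : ℝ × ℝ, v ≠ 0 ∧ ∃ r : ℝ, 0 < r ∧ Ray A q v r) {p : ℝ × ℝ}
    (hp : p ∈ U) : Good A p := by
  have hnc : ∀ q ∈ U, A q ∉ ({α | ∃ q ∈ U, ¬ NoCorner A q ∧ A q = α} ∪ A '' X) →
      NoCorner A q := fun q hq hg => by_contra fun h => hg (Or.inl ⟨q, hq, h, rfl⟩)
  exact good_of_all hA (corner_disconnected hA hU hf hX) hU
    (fun q hq hg => good_of_generic hA (corner_disconnected hA hU hf hX) hU hX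
      (fun x hx => Or.inr ⟨x, hx, rfl⟩) hst hnc hq hg) hnc hp

theorem plane {f : ℝ × ℝ → F} {A : ℝ × ℝ → (ℝ × ℝ →L[ℝ] F)} {U : Set (ℝ × ℝ)} (hU : IsOpen U)
    (hA : ContinuousOn A U) (hf : ∀ q ∈ U, HasFDerivAt f (A q) q)
    {X : Set (ℝ × ℝ)} (hX : X.Countable)
    (hst : ∀ q ∈ U, q ∉ X → ∃ v : ℝ × ℝ, v ≠ 0 ∧ ∃ r : ℝ, 0 < r ∧ Ray A q v r) {p : ℝ × ℝ}
    (hp : p ∈ U) :
    ∃ v : ℝ × ℝ, v ≠ 0 ∧ ∃ ε : ℝ, 0 < ε ∧ ∀ s ∈ Icc (-ε) ε, p + s • v ∈ U ∧ A (p + s • v) = A p := by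
  obtain ⟨R, hR, hRU⟩ := nhds_basis_closedBall.mem_iff.1 (hU.mem_nhds hp)
  set c : ℝ × ℝ → ℝ × ℝ := fun q =>
    (max (p.1 - R) (min q.1 (p.1 + R)), max (p.2 - R) (min q.2 (p.2 + R))) with hc
  have hcc : Continuous c := by fun_prop
  have hcm : ∀ q, c q ∈ closedBall p R := by
    intro q
    rw [mem_closedBall, Prod.dist_eq, max_le_iff, Real.dist_eq, Real.dist_eq, abs_le, abs_le]
    simp only [hc]
    refine ⟨⟨?_, ?_⟩, ?_, ?_⟩
    · linarith [le_max_left (p.1 - R) (min q.1 (p.1 + R))]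
    · linarith [max_le (show p.1 - R ≤ p.1 + R by linarith) (min_le_right q.1 (p.1 + R))]
    · linarith [le_max_left (p.2 - R) (min q.2 (p.2 + R))]
    · linarith [max_le (show p.2 - R ≤ p.2 + R by linarith) (min_le_right q.2 (p.2 + R))]
  have hce : ∀ q ∈ ball p R, c q = q := by
    intro q hq
    rw [mem_ball, Prod.dist_eq, max_lt_iff, Real.dist_eq, Real.dist_eq, abs_lt, abs_lt] at hq
    simp only [hc]
    rw [min_eq_left (by linarith [hq.1.2]), max_eq_right (by linarith [hq.1.1]),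
      min_eq_left (by linarith [hq.2.2]), max_eq_right (by linarith [hq.2.1])]
  have hA' : Continuous (A ∘ c) := hA.comp_continuous hcc fun q => hRU (hcm q)
  have hsub : ball p R ⊆ U := ball_subset_closedBall.trans hRU
  obtain ⟨v, hv, ε, hε, h1, h2⟩ := good_of_semi_deriv (f := f) hA' (U := ball p R) isOpen_ball
    (fun q hq => by rw [Function.comp_apply, hce q hq]; exact hf q (hsub hq)) hX
    (fun q hq hqX => by
      obtain ⟨v, hv, r, hr, hray⟩ := hst q (hsub hq) hqX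
      obtain ⟨ε, hε, hεr, hin⟩ := ray_shorten isOpen_ball hq v hr
      refine ⟨v, hv, ε, hε, fun s hs => ?_⟩
      rw [Function.comp_apply, Function.comp_apply, hce q hq,
        hce _ (hin s ⟨by linarith [hs.1], hs.2⟩)]
      exact hray s ⟨hs.1, hs.2.trans hεr⟩)
    (mem_ball_self hR)
  obtain ⟨δ, hδ, hδε, hin⟩ := ray_shorten isOpen_ball (mem_ball_self (x := p) hR) v hε
  refine ⟨v, hv, δ, hδ, fun s hs => ⟨hsub (hin s hs), ?_⟩⟩
  rw [← hce _ (hin s hs), ← hce p (mem_ball_self hR), hce p (mem_ball_self hR)]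
  conv_rhs => rw [← hce p (mem_ball_self hR)]
  rcases le_total 0 s with h | h
  · exact h1 s ⟨h, hs.2.trans hδε⟩
  · have := h2 (-s) ⟨by linarith, by linarith [hs.1]⟩
    rwa [smul_neg, neg_smul, neg_neg] at this

end Pool.Agent.Lib.MP_88a170_gt.Codim
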