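import Mathlib
import Pool.Agent.Lib.MP_88a170_gt.CodimA

/-! Semi-torses in any codimension, with a countable exceptional set: immersed surfaces. -/

open Set Topology Metric
open scoped Manifold

namespace Pool.Agent.Lib.MP_88a170_gt.Codim

variable {F : Type*} [NormedAddCommGroup F] [NormedSpace ℝ F]

theorem exists_left_inverse (D : EuclideanSpace ℝ (Fin 2) →L[ℝ] F) (hD : Function.Injective D) :
    ∃ P : F →L[ℝ] EuclideanSpace ℝ (Fin 2), ∀ x, P (D x) = x := by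
  obtain ⟨g, hg⟩ := Submodule.ClosedComplemented.of_finiteDimensional (𝕜 := ℝ) D.range
  set e := (LinearEquiv.ofInjective D.toLinearMap hD).symm.toContinuousLinearEquiv with he
  refine ⟨(e : D.range →L[ℝ] EuclideanSpace ℝ (Fin 2)).comp g, fun x => ?_⟩
  have h1 := hg ⟨D x, x, rfl⟩
  simp only [ContinuousLinearMap.comp_apply] at h1 ⊢
  rw [h1]
  exact (LinearEquiv.ofInjective D.toLinearMap hD).symm_apply_apply x

theorem graph_of_chart {ψ : EuclideanSpace ℝ (Fin 2) → F}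
    {O : Set (EuclideanSpace ℝ (Fin 2))} (hO : IsOpen O) (hψ : ContDiffOn ℝ 1 ψ O)
    {x₀ : EuclideanSpace ℝ (Fin 2)} (hx₀ : x₀ ∈ O) (hinj : Function.Injective (fderiv ℝ ψ x₀)) :
    ∃ (T : F →L[ℝ] ℝ × ℝ) (U : Set (ℝ × ℝ))
      (W : Set (EuclideanSpace ℝ (Fin 2))) (χ : ℝ × ℝ → EuclideanSpace ℝ (Fin 2))
      (A : ℝ × ℝ → (ℝ × ℝ →L[ℝ] F)),
      IsOpen U ∧ IsOpen W ∧ x₀ ∈ W ∧ W ⊆ O ∧ ContinuousOn χ U ∧ (∀ q ∈ U, χ q ∈ W) ∧
      (∀ x ∈ W, T (ψ x) ∈ U ∧ χ (T (ψ x)) = x) ∧ (∀ q ∈ U, T (ψ (χ q)) = q) ∧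
      (∀ q ∈ U, HasFDerivAt (fun q => ψ (χ q)) (A q) q) ∧ ContinuousOn A U ∧
      (∀ q ∈ U, ∀ u, T (A q u) = u) ∧
      ∀ q ∈ U, (fderiv ℝ ψ (χ q)).range = (A q).range := by
  set D := fderiv ℝ ψ x₀ with hD
  obtain ⟨J⟩ : Nonempty ((ℝ × ℝ) ≃L[ℝ] EuclideanSpace ℝ (Fin 2)) :=
    FiniteDimensional.nonempty_continuousLinearEquiv_of_finrank_eq (by simp)
  obtain ⟨P, hP⟩ := exists_left_inverse D hinj
  set T : F →L[ℝ] ℝ × ℝ := (J.symm : EuclideanSpace ℝ (Fin 2) →L[ℝ] ℝ × ℝ).comp P with hT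
  set G : EuclideanSpace ℝ (Fin 2) → ℝ × ℝ := fun x => T (ψ x) with hG
  have hψ0 : ContDiffAt ℝ 1 ψ x₀ := hψ.contDiffAt (hO.mem_nhds hx₀)
  have hGc : ContDiffAt ℝ 1 G x₀ := T.contDiff.contDiffAt.comp x₀ hψ0
  have hGd : HasFDerivAt G (J.symm : EuclideanSpace ℝ (Fin 2) →L[ℝ] ℝ × ℝ) x₀ := by
    have h1 := T.hasFDerivAt.comp x₀ (hψ0.differentiableAt one_ne_zero).hasFDerivAt
    refine h1.congr_fderiv (ContinuousLinearMap.ext fun x => ?_)
    simp [← hD, hT, hP]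
  set h := hGc.toOpenPartialHomeomorph G hGd one_ne_zero with hh
  have hhG : (h : EuclideanSpace ℝ (Fin 2) → ℝ × ℝ) = G := rfl
  have hx₀h : x₀ ∈ h.source := hGc.mem_toOpenPartialHomeomorph_source hGd one_ne_zero
  have hinv : ContDiffAt ℝ 1 h.symm (G x₀) := hGc.to_localInverse hGd one_ne_zero
  have hsx : h.symm (G x₀) = x₀ := h.left_inv hx₀h
  have hev : ∀ᶠ q in 𝓝 (G x₀), ContDiffAt ℝ 1 h.symm q ∧ q ∈ h.target ∧ h.symm q ∈ O := by
    refine (hinv.eventually (by simp)).and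
      (Filter.Eventually.and (h.open_target.mem_nhds (h.map_source hx₀h)) ?_)
    exact hinv.continuousAt.preimage_mem_nhds (by rw [hsx]; exact hO.mem_nhds hx₀)
  obtain ⟨U, hUsub, hU, hxU⟩ := _root_.mem_nhds_iff.1 hev
  have hWo : IsOpen (h.source ∩ h ⁻¹' U) := h.isOpen_inter_preimage hU
  have hcd : ∀ q ∈ U, ContDiffAt ℝ 1 (fun q => ψ (h.symm q)) q := fun q hq =>
    (hψ.contDiffAt (hO.mem_nhds (hUsub hq).2.2)).comp q (hUsub hq).1
  have hgraph : ∀ q ∈ U, T (ψ (h.symm q)) = q := fun q hq => h.right_inv (hUsub hq).2.1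
  have hder : ∀ q ∈ U, HasFDerivAt (fun q => ψ (h.symm q))
      (fderiv ℝ (fun q => ψ (h.symm q)) q) q := fun q hq =>
    ((hcd q hq).differentiableAt one_ne_zero).hasFDerivAt
  have hTA : ∀ q ∈ U, ∀ u, T (fderiv ℝ (fun q => ψ (h.symm q)) q u) = u := by
    intro q hq u
    have d1 := T.hasFDerivAt.comp q (hder q hq)
    have d2 : HasFDerivAt (T ∘ fun q => ψ (h.symm q)) (ContinuousLinearMap.id ℝ (ℝ × ℝ)) q := by
      refine (hasFDerivAt_id q).congr_of_eventuallyEq ?_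
      filter_upwards [hU.mem_nhds hq] with q' hq' using hgraph q' hq'
    exact congr($(d1.unique d2) u)
  refine ⟨T, U, h.source ∩ h ⁻¹' U, h.symm, fderiv ℝ fun q => ψ (h.symm q), hU, hWo,
    ⟨hx₀h, hxU⟩, ?_, ?_, ?_, ?_, hgraph, hder, ?_, hTA, ?_⟩
  · intro x hx
    have := (hUsub hx.2).2.2
    rwa [h.left_inv hx.1] at this
  · exact fun q hq => (hUsub hq).1.continuousAt.continuousWithinAt
  · intro q hq
    refine ⟨h.map_target (hUsub hq).2.1, ?_⟩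
    rw [mem_preimage, h.right_inv (hUsub hq).2.1]
    exact hq
  · exact fun x hx => ⟨hx.2, h.left_inv hx.1⟩
  · exact ContDiffOn.continuousOn_fderiv_of_isOpen (n := 1)
      (fun q hq => (hcd q hq).contDiffWithinAt) hU le_rfl
  · intro q hq
    set Dq := fderiv ℝ ψ (h.symm q) with hDq
    set C := fderiv ℝ h.symm q with hC
    have d1 : HasFDerivAt (fun q => ψ (h.symm q)) (Dq.comp C) q :=
      (((hψ.contDiffAt (hO.mem_nhds (hUsub hq).2.2)).differentiableAt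
          one_ne_zero).hasFDerivAt).comp q ((hUsub hq).1.differentiableAt one_ne_zero).hasFDerivAt
    have key : ∀ u, Dq (C u) = fderiv ℝ (fun q => ψ (h.symm q)) q u := fun u =>
      congr($(d1.unique (hder q hq)) u)
    have hCinj : Function.Injective C.toLinearMap := by
      intro u u' huu
      have h1 : C u = C u' := huu
      rw [← hTA q hq u, ← hTA q hq u', ← key, ← key, h1]
    have hCsurj : Function.Surjective C.toLinearMap :=
      (LinearMap.injective_iff_surjective_of_finrank_eq_finrank (by simp)).1 hCinj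
    ext y
    constructor
    · rintro ⟨x, rfl⟩
      obtain ⟨u, rfl⟩ := hCsurj x
      exact ⟨u, (key u).symm⟩
    · rintro ⟨u, rfl⟩
      exact ⟨C u, key u⟩

theorem chart_param {M : Type*} [TopologicalSpace M] [ChartedSpace (EuclideanSpace ℝ (Fin 2)) M]
    [IsManifold (𝓡 2) 1 M] {φ : M → F} (hφ : ContMDiff (𝓡 2) 𝓘(ℝ, F) 1 φ) (p : M) :
    ContDiffOn ℝ 1 (φ ∘ (extChartAt (𝓡 2) p).symm) (extChartAt (𝓡 2) p).target ∧
    ∀ m ∈ (extChartAt (𝓡 2) p).source,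
      (mvfderiv (𝓡 2) φ m).range =
        (fderiv ℝ (φ ∘ (extChartAt (𝓡 2) p).symm) (extChartAt (𝓡 2) p m)).range ∧
      (Function.Injective (mvfderiv (𝓡 2) φ m) → Function.Injective
        (fderiv ℝ (φ ∘ (extChartAt (𝓡 2) p).symm) (extChartAt (𝓡 2) p m))) := by
  have hψ : ContDiffOn ℝ 1 (φ ∘ (extChartAt (𝓡 2) p).symm) (extChartAt (𝓡 2) p).target :=
    contMDiffOn_iff_contDiffOn.1 (hφ.comp_contMDiffOn (contMDiffOn_extChartAt_symm p))
  refine ⟨hψ, fun m hm => ?_⟩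
  set e := extChartAt (𝓡 2) p with he
  have hev : φ =ᶠ[𝓝 m] (φ ∘ e.symm) ∘ e := by
    filter_upwards [(isOpen_extChartAt_source p).mem_nhds hm] with m' hm'
    simp only [Function.comp_apply]
    rw [e.left_inv hm']
  have hd : DifferentiableAt ℝ (φ ∘ e.symm) (e m) :=
    (hψ.contDiffAt ((isOpen_extChartAt_target p).mem_nhds (e.map_source hm))).differentiableAt
      one_ne_zero
  have hme : MDifferentiableAt (𝓡 2) (𝓡 2) e m :=
    mdifferentiableAt_extChartAt (by rwa [he, extChartAt_source] at hm)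
  obtain ⟨K, hK⟩ := isInvertible_mfderiv_extChartAt (I := 𝓡 2) hm
  have key : ∀ ξ, mvfderiv (𝓡 2) φ m ξ = fderiv ℝ (φ ∘ e.symm) (e m) (K ξ) := by
    intro ξ
    have h1 : mfderiv (𝓡 2) 𝓘(ℝ, F) φ m = mfderiv (𝓡 2) 𝓘(ℝ, F) ((φ ∘ e.symm) ∘ e) m :=
      hev.mfderiv_eq
    have h2 := mfderiv_comp_apply m hd.mdifferentiableAt hme ξ
    rw [mfderiv_eq_fderiv] at h2
    have h3 : K ξ = mfderiv (𝓡 2) (𝓡 2) e m ξ := congr($hK ξ)
    rw [h3]
    exact (congr($h1 ξ)).trans h2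
  constructor
  · ext y
    constructor
    · rintro ⟨ξ, rfl⟩
      exact ⟨K ξ, (key ξ).symm⟩
    · rintro ⟨x, rfl⟩
      obtain ⟨ξ, rfl⟩ := K.surjective x
      exact ⟨ξ, key ξ⟩
  · intro hinj x x' hxx
    obtain ⟨ξ, rfl⟩ := K.surjective x
    obtain ⟨ξ', rfl⟩ := K.surjective x'
    rw [hinj ((key ξ).trans (hxx.trans (key ξ').symm))]

theorem local_graph {M : Type*} [TopologicalSpace M] [ChartedSpace (EuclideanSpace ℝ (Fin 2)) M]
    [IsManifold (𝓡 2) 1 M] {φ : M → F} (hφ : ContMDiff (𝓡 2) 𝓘(ℝ, F) 1 φ)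
    (p : M) (hinj : Function.Injective (mvfderiv (𝓡 2) φ p)) :
    ∃ (T : F →L[ℝ] ℝ × ℝ) (U : Set (ℝ × ℝ)) (V : Set M)
      (σ : ℝ × ℝ → M) (A : ℝ × ℝ → (ℝ × ℝ →L[ℝ] F)),
      IsOpen U ∧ IsOpen V ∧ p ∈ V ∧ ContinuousOn σ U ∧
      (∀ m ∈ V, T (φ m) ∈ U ∧ σ (T (φ m)) = m) ∧ (∀ q ∈ U, σ q ∈ V) ∧
      (∀ q ∈ U, T (φ (σ q)) = q) ∧
      (∀ q ∈ U, HasFDerivAt (fun q => φ (σ q)) (A q) q) ∧ ContinuousOn A U ∧
      (∀ q ∈ U, ∀ u, T (A q u) = u) ∧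
      ∀ q ∈ U, (mvfderiv (𝓡 2) φ (σ q)).range = (A q).range := by
  obtain ⟨hψ, hr⟩ := chart_param hφ p
  set e := extChartAt (𝓡 2) p with he
  have hp : p ∈ e.source := mem_extChartAt_source p
  obtain ⟨T, U, W, χ, A, hU, hW, hxW, hWO, hχ, hχW, hinv, hgr, hf, hA, hTA, hrange⟩ :=
    graph_of_chart (isOpen_extChartAt_target p) hψ (e.map_source hp) ((hr p hp).2 hinj)
  refine ⟨T, U, e.source ∩ e ⁻¹' W, e.symm ∘ χ, A, hU,
    isOpen_extChartAt_preimage' p hW, ⟨hp, hxW⟩,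
    (continuousOn_extChartAt_symm p).comp hχ fun q hq => hWO (hχW q hq), ?_, ?_, hgr, hf, hA,
    hTA, ?_⟩
  · intro m hm
    have := hinv (e m) hm.2
    simp only [Function.comp_apply, e.left_inv hm.1] at this ⊢
    refine ⟨this.1, ?_⟩
    rw [this.2, e.left_inv hm.1]
  · intro q hq
    have h1 := hWO (hχW q hq)
    refine ⟨e.map_target h1, ?_⟩
    rw [mem_preimage, Function.comp_apply, e.right_inv h1]
    exact hχW q hq
  · intro q hq
    have h1 := hWO (hχW q hq)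
    rw [Function.comp_apply, (hr _ (e.map_target h1)).1, e.right_inv h1]
    exact hrange q hq

theorem surface {M : Type*} [TopologicalSpace M] [ChartedSpace (EuclideanSpace ℝ (Fin 2)) M]
    [IsManifold (𝓡 2) 1 M] {φ : M → F} (hφ : ContMDiff (𝓡 2) 𝓘(ℝ, F) 1 φ)
    (hinj : ∀ m, Function.Injective (mvfderiv (𝓡 2) φ m)) {X : Set M} (hX : X.Countable)
    (hst : ∀ m : M, m ∉ X → ∃ (γ : ℝ → M) (v : F), v ≠ 0 ∧ γ 0 = m ∧
      ContinuousOn γ (Icc 0 1) ∧ (∀ t ∈ Icc (0 : ℝ) 1, φ (γ t) = φ m + t • v) ∧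
      ∀ t ∈ Icc (0 : ℝ) 1, (mvfderiv (𝓡 2) φ (γ t)).range = (mvfderiv (𝓡 2) φ m).range)
    (p : M) :
    ∃ (γ : ℝ → M) (v : F), v ≠ 0 ∧ γ 0 = p ∧
      ContinuousOn γ (Icc (-1) 1) ∧ (∀ t ∈ Icc (-1 : ℝ) 1, φ (γ t) = φ p + t • v) ∧
      v ∈ (mvfderiv (𝓡 2) φ p).range ∧
      ∀ t ∈ Icc (-1 : ℝ) 1, (mvfderiv (𝓡 2) φ (γ t)).range = (mvfderiv (𝓡 2) φ p).range := by
  obtain ⟨T, U, V, σ, A, hU, hV, hpV, hσ, hinv, hσV, hgr, hf, hA, hTA, hrange⟩ :=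
    local_graph hφ p (hinj p)
  have hAeq : ∀ q ∈ U, ∀ q' ∈ U,
      (mvfderiv (𝓡 2) φ (σ q')).range = (mvfderiv (𝓡 2) φ (σ q)).range ↔ A q' = A q := by
    intro q hq q' hq'
    rw [hrange q hq, hrange q' hq']
    refine ⟨fun h => ContinuousLinearMap.ext fun u => ?_, fun h => by rw [h]⟩
    have h1 : A q' u ∈ (A q).range := h ▸ ⟨u, rfl⟩
    obtain ⟨w, hw⟩ := h1
    have hw' : A q w = A q' u := hw
    have h2 : w = u := by rw [← hTA q hq w, hw', hTA q' hq' u]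
    rw [← hw', h2]
  obtain ⟨hp1, hp2⟩ := hinv p hpV
  obtain ⟨u, hu, ε, hε, hseg⟩ := plane hU hA hf (hX.image fun m => T (φ m)) (p := T (φ p))
    (fun q hq hqX => by
    obtain ⟨γ, v, hv, h0, hγ, hlin, hran⟩ := hst (σ q) fun h => hqX ⟨σ q, h, hgr q hq⟩
    have hev : γ ⁻¹' V ∈ 𝓝[Icc 0 1] (0 : ℝ) :=
      (hγ 0 ⟨le_rfl, zero_le_one⟩).preimage_mem_nhdsWithin (by
        rw [h0]; exact hV.mem_nhds (hσV q hq))
    obtain ⟨δ, hδ, hsub⟩ := Metric.mem_nhdsWithin_iff.1 hev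
    have hr0 : 0 < min (δ / 2) 1 := lt_min (by linarith) one_pos
    have hin : ∀ s ∈ Icc (0 : ℝ) (min (δ / 2) 1), s ∈ Icc (0 : ℝ) 1 ∧ γ s ∈ V := by
      intro s hs
      have h1 : s ∈ Icc (0 : ℝ) 1 := ⟨hs.1, hs.2.trans (min_le_right _ _)⟩
      refine ⟨h1, hsub ⟨?_, h1⟩⟩
      rw [mem_ball, Real.dist_eq, sub_zero, abs_of_nonneg hs.1]
      linarith [hs.2, min_le_left (δ / 2) 1]
    have hpos : ∀ s ∈ Icc (0 : ℝ) (min (δ / 2) 1),
        q + s • T v ∈ U ∧ σ (q + s • T v) = γ s := by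
      intro s hs
      have h1 := hinv _ (hin s hs).2
      rw [hlin s (hin s hs).1, map_add, map_smul, hgr q hq] at h1
      exact h1
    refine ⟨T v, fun h => hv ?_, min (δ / 2) 1, hr0, fun s hs => ?_⟩
    · have h1 := (hpos _ ⟨hr0.le, le_rfl⟩).2
      rw [h, smul_zero, add_zero] at h1
      have h2 := hlin _ (hin _ ⟨hr0.le, le_rfl⟩).1
      rw [← h1] at h2
      have h3 : min (δ / 2) 1 • v = 0 := by simpa using h2
      exact (smul_eq_zero.1 h3).resolve_left hr0.ne'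
    · refine (hAeq q hq _ (hpos s hs).1).1 ?_
      rw [(hpos s hs).2]
      exact hran s (hin s hs).1) hp1
  obtain ⟨q, hq⟩ : ∃ q, q = T (φ p) := ⟨_, rfl⟩
  rw [← hq] at hp1 hp2 hseg
  have hmem : ∀ t ∈ Icc (-1 : ℝ) 1, t * ε ∈ Icc (-ε) ε := fun t ht =>
    ⟨by nlinarith [ht.1], by nlinarith [ht.2]⟩
  have haff : ∀ s ∈ Icc (-ε) ε, φ (σ (q + s • u)) = φ (σ q) + s • A q u := by
    intro s hs
    have hm : ∀ θ ∈ Icc (0 : ℝ) 1, θ * s ∈ Icc (-ε) ε := fun θ hθ =>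
      ⟨by nlinarith [hθ.1, hθ.2, hs.1], by nlinarith [hθ.1, hθ.2, hs.2]⟩
    refine (SeparatingDual.eq_iff_forall_dual_eq (R := ℝ)).2 fun l => ?_
    have := mvt (g := fun q => l (φ (σ q))) (B := fun q => l.comp (A q)) q (s • u) (l.comp (A q)) 0
      (fun θ hθ => by rw [smul_smul]; exact l.hasFDerivAt.comp _ (hf _ (hseg _ (hm θ hθ)).1))
      (fun θ hθ => by rw [smul_smul, (hseg _ (hm θ hθ)).2]; simp)
    rw [zero_mul, map_smul, smul_eq_mul] at this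
    have := abs_nonpos_iff.1 this
    rw [map_add, map_smul, smul_eq_mul]
    simp only [ContinuousLinearMap.comp_apply] at this
    linarith
  refine ⟨fun t => σ (q + (t * ε) • u), ε • A q u, ?_, by simpa using hp2, ?_, ?_, ?_, ?_⟩
  · intro h
    have h1 : ε • u = 0 := by simpa [hTA q hp1] using congrArg T h
    exact hu ((smul_eq_zero.1 h1).resolve_left hε.ne')
  · exact hσ.comp (by fun_prop) fun t ht => (hseg _ (hmem t ht)).1
  · intro t ht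
    rw [haff _ (hmem t ht), hp2, smul_smul]
  · rw [← hp2, hrange q hp1]
    exact Submodule.smul_mem _ _ ⟨u, rfl⟩
  · intro t ht
    rw [← hp2]
    exact (hAeq q hp1 _ (hseg _ (hmem t ht)).1).2 (hseg _ (hmem t ht)).2

end Pool.Agent.Lib.MP_88a170_gt.Codim
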