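import Mathlib
import Pool.Agent.Lib.MP_88a170_gt.Graph

open Set Topology Metric
open scoped Manifold

namespace Pool.Agent.Lib.MP_88a170_gt

theorem surface {M : Type*} [TopologicalSpace M] [ChartedSpace (EuclideanSpace ℝ (Fin 2)) M]
    [IsManifold (𝓡 2) 1 M] {φ : M → EuclideanSpace ℝ (Fin 3)} (hφ : ContMDiff (𝓡 2) (𝓡 3) 1 φ)
    (hinj : ∀ m, Function.Injective (mvfderiv (𝓡 2) φ m))
    (hst : ∀ m : M, ∃ (γ : ℝ → M) (v : EuclideanSpace ℝ (Fin 3)), v ≠ 0 ∧ γ 0 = m ∧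
      ContinuousOn γ (Icc 0 1) ∧ (∀ t ∈ Icc (0 : ℝ) 1, φ (γ t) = φ m + t • v) ∧
      ∀ t ∈ Icc (0 : ℝ) 1, (mvfderiv (𝓡 2) φ (γ t)).range = (mvfderiv (𝓡 2) φ m).range)
    (p : M) :
    ∃ (γ : ℝ → M) (v : EuclideanSpace ℝ (Fin 3)), v ≠ 0 ∧ γ 0 = p ∧
      ContinuousOn γ (Icc (-1) 1) ∧ (∀ t ∈ Icc (-1 : ℝ) 1, φ (γ t) = φ p + t • v) ∧
      v ∈ (mvfderiv (𝓡 2) φ p).range ∧
      ∀ t ∈ Icc (-1 : ℝ) 1, (mvfderiv (𝓡 2) φ (γ t)).range = (mvfderiv (𝓡 2) φ p).range := by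
  obtain ⟨T, U, V, σ, f, A, hU, hV, hpV, hσ, hinv, hσV, hgr, hf, hA, hrange⟩ :=
    local_graph hφ p (hinj p)
  have hAeq : ∀ q ∈ U, ∀ q' ∈ U,
      (mvfderiv (𝓡 2) φ (σ q')).range = (mvfderiv (𝓡 2) φ (σ q)).range ↔ A q' = A q := by
    intro q hq q' hq'
    constructor
    · intro h
      refine ContinuousLinearMap.ext fun u => ?_
      have h1 := (hrange q' hq' (T.symm (u, A q' u))).2 (by simp)
      rw [h, hrange q hq] at h1
      simpa using h1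
    · intro h
      ext y
      rw [hrange q hq, hrange q' hq', h]
  obtain ⟨hp1, hp2⟩ := hinv p hpV
  obtain ⟨u, hu, ε, hε, hseg⟩ := plane hU hA hf (p := (T (φ p)).1) (fun q hq => by
    obtain ⟨γ, v, hv, h0, hγ, hlin, hran⟩ := hst (σ q)
    have hev : γ ⁻¹' V ∈ 𝓝[Icc 0 1] (0 : ℝ) :=
      (hγ 0 ⟨le_rfl, zero_le_one⟩).preimage_mem_nhdsWithin (by
        rw [h0]; exact hV.mem_nhds (hσV q hq))
    obtain ⟨δ, hδ, hsub⟩ := Metric.mem_nhdsWithin_iff.1 hev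
    have hr0 : 0 < min (δ / 2) 1 := lt_min (by linarith) one_pos
    have hin : ∀ s ∈ Icc (0 : ℝ) (min (δ / 2) 1), s ∈ Icc (0 : ℝ) 1 ∧ γ s ∈ V := by
      intro s hs
      have h1 : s ∈ Icc (0 : ℝ) 1 := ⟨hs.1, hs.2.trans (min_le_right _ _)⟩
      refine ⟨h1, hsub ⟨?_, h1⟩⟩
      rw [mem_ball, Real.dist_eq, sub_zero, abs_of_nonneg hs.1]
      linarith [hs.2, min_le_left (δ / 2) 1]
    have hpos : ∀ s ∈ Icc (0 : ℝ) (min (δ / 2) 1),
        q + s • (T v).1 ∈ U ∧ σ (q + s • (T v).1) = γ s := by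
      intro s hs
      have h1 := hinv _ (hin s hs).2
      rw [hlin s (hin s hs).1, map_add, map_smul, hgr q hq] at h1
      exact h1
    refine ⟨(T v).1, fun h => hv ?_, min (δ / 2) 1, hr0, fun s hs => ?_⟩
    · have h1 := (hpos _ ⟨hr0.le, le_rfl⟩).2
      rw [h, smul_zero, add_zero] at h1
      have h2 := hlin _ (hin _ ⟨hr0.le, le_rfl⟩).1
      rw [← h1] at h2
      have h3 : min (δ / 2) 1 • v = 0 := by simpa using h2
      exact (smul_eq_zero.1 h3).resolve_left hr0.ne'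
    · refine (hAeq q hq _ (hpos s hs).1).1 ?_
      rw [(hpos s hs).2]
      exact hran s (hin s hs).1) hp1
  obtain ⟨q, hq⟩ : ∃ q, q = (T (φ p)).1 := ⟨_, rfl⟩
  rw [← hq] at hp1 hp2 hseg
  have hmem : ∀ t ∈ Icc (-1 : ℝ) 1, t * ε ∈ Icc (-ε) ε := fun t ht =>
    ⟨by nlinarith [ht.1], by nlinarith [ht.2]⟩
  have haff : ∀ s ∈ Icc (-ε) ε, f (q + s • u) = f q + s * A q u := by
    intro s hs
    have hm : ∀ θ ∈ Icc (0 : ℝ) 1, θ * s ∈ Icc (-ε) ε := fun θ hθ =>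
      ⟨by nlinarith [hθ.1, hθ.2, hs.1], by nlinarith [hθ.1, hθ.2, hs.2]⟩
    have := mvt (g := f) (B := A) q (s • u) (A q) 0
      (fun θ hθ => by rw [smul_smul]; exact hf _ (hseg _ (hm θ hθ)).1)
      (fun θ hθ => by rw [smul_smul, (hseg _ (hm θ hθ)).2]; simp)
    rw [zero_mul, map_smul, smul_eq_mul] at this
    have := abs_nonpos_iff.1 this
    linarith
  refine ⟨fun t => σ (q + (t * ε) • u), T.symm (ε • u, ε * A q u), ?_, by simpa using hp2, ?_, ?_,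
    ?_, ?_⟩
  · intro h
    have h1 : (ε • u, ε * A q u) = 0 := by simpa using congrArg T h
    exact hu ((smul_eq_zero.1 (congrArg Prod.fst h1)).resolve_left hε.ne')
  · exact hσ.comp (by fun_prop) fun t ht => (hseg _ (hmem t ht)).1
  · intro t ht
    refine T.injective ?_
    rw [hgr _ (hseg _ (hmem t ht)).1, haff _ (hmem t ht), map_add, map_smul, T.apply_symm_apply,
      ← hp2, hgr q hp1]
    simp [smul_smul, mul_assoc]
  · rw [← hp2, hrange q hp1]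
    simp
  · intro t ht
    rw [← hp2]
    exact (hAeq q hp1 _ (hseg _ (hmem t ht)).1).2 (hseg _ (hmem t ht)).2

end Pool.Agent.Lib.MP_88a170_gt
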